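import Mathlib
import Pool.Agent.H843R3.Had2.Planar

set_option autoImplicit false
set_option maxHeartbeats 1000000

open Set Topology Filter
open Pool.Agent.H843R3.Had2

namespace Pool.Agent.Zk76.Pm

/-! A planar lemma: two directions for the shadows of one type of points. -/

/-- the direction `w ρ` is good near `q` for all small positive `ρ`. -/
def Gd (Q : Set (ℝ × ℝ)) (w : ℝ → ℝ × ℝ) (q : ℝ × ℝ) : Prop :=
  ∀ᶠ z : ℝ × (ℝ × ℝ) in 𝓝 ((0 : ℝ), q), z.2 ∈ Q → 0 < z.1 → Co Q z.2 (w z.1)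

theorem Gd.unif {Q S : Set (ℝ × ℝ)} (hS : IsCompact S) (hSQ : S ⊆ Q) (w₁ w₂ : ℝ → ℝ × ℝ)
    (h : ∀ q ∈ S, Gd Q w₁ q ∨ Gd Q w₂ q) :
    ∃ d : Bool → ℝ × ℝ, ∀ q ∈ S, ∃ b, Co Q q (d b) := by
  have h1 : ∀ᶠ ρ : ℝ in 𝓝 (0 : ℝ), ∀ q ∈ S, (q ∈ Q → 0 < ρ → Co Q q (w₁ ρ) ∨ Co Q q (w₂ ρ)) := by
    refine hS.eventually_forall_of_forall_eventually
      (P := fun ρ q => q ∈ Q → 0 < ρ → Co Q q (w₁ ρ) ∨ Co Q q (w₂ ρ)) ?_
    intro q hq
    rcases h q hq with h2 | h2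
    · exact h2.mono fun z hz h3 h4 => Or.inl (hz h3 h4)
    · exact h2.mono fun z hz h3 h4 => Or.inr (hz h3 h4)
  have h2 : ∀ᶠ ρ : ℝ in 𝓝[>] (0 : ℝ), ∀ q ∈ S,
      (q ∈ Q → 0 < ρ → Co Q q (w₁ ρ) ∨ Co Q q (w₂ ρ)) := h1.filter_mono nhdsWithin_le_nhds
  obtain ⟨ρ, h3, h4⟩ := (h2.and self_mem_nhdsWithin).exists
  refine ⟨fun b => if b then w₁ ρ else w₂ ρ, fun q hq => ?_⟩
  rcases h3 q hq (hSQ hq) h4 with h5 | h5
  · exact ⟨true, by simpa using h5⟩
  · exact ⟨false, by simpa using h5⟩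

theorem Gd.const {Q : Set (ℝ × ℝ)} {q v : ℝ × ℝ} (h : Co Q q v) : Gd Q (fun _ => v) q := by
  obtain ⟨ε, hε, h1⟩ := h
  have h2 : Tendsto (fun z : ℝ × (ℝ × ℝ) => z.2 + ε • v) (𝓝 ((0 : ℝ), q)) (𝓝 (q + ε • v)) :=
    Continuous.tendsto' (by fun_prop) _ _ rfl
  exact (h2.eventually (isOpen_interior.mem_nhds h1)).mono fun z hz _ _ => ⟨ε, hε, hz⟩

/-- interior levels -/
theorem int_level {Q : Set (ℝ × ℝ)} (hQ : Convex ℝ Q) (h0 : 0 ∈ interior Q)
    (hz : ∀ q ∈ Q, ((0 : ℝ), q.2) ∈ Q) {s : ℝ} (h1 : ∃ p ∈ Q, s < p.2) (h2 : ∃ p ∈ Q, p.2 < s) :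
    ((0 : ℝ), s) ∈ interior Q := by
  rcases le_or_gt 0 s with hs | hs
  · obtain ⟨p, hp, hp1⟩ := h1
    have hp0 : 0 < p.2 := by linarith
    have h3 := hQ.combo_self_interior_mem_interior (hz p hp) h0 (a := s / p.2)
      (b := 1 - s / p.2) (by positivity) (by
        rw [sub_pos, div_lt_one hp0]; exact hp1) (by ring)
    have h4 : (s / p.2) • (((0 : ℝ), p.2) : ℝ × ℝ) + (1 - s / p.2) • (0 : ℝ × ℝ) = (0, s) := by
      ext
      · simp
      · simp only [smul_zero, add_zero, Prod.smul_snd, smul_eq_mul]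
        field_simp
    rwa [h4] at h3
  · obtain ⟨p, hp, hp1⟩ := h2
    have hp0 : p.2 < 0 := by linarith
    have h3 := hQ.combo_self_interior_mem_interior (hz p hp) h0 (a := s / p.2)
      (b := 1 - s / p.2) (div_nonneg_of_nonpos hs.le hp0.le) (by
        rw [sub_pos, div_lt_one_of_neg hp0]; exact hp1) (by ring)
    have h4 : (s / p.2) • (((0 : ℝ), p.2) : ℝ × ℝ) + (1 - s / p.2) • (0 : ℝ × ℝ) = (0, s) := by
      ext
      · simp
      · simp only [smul_zero, add_zero, Prod.smul_snd, smul_eq_mul]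
        have := hp0.ne
        field_simp
    rwa [h4] at h3

theorem int_between {Q : Set (ℝ × ℝ)} (hQ : Convex ℝ Q) {a b u s : ℝ}
    (h0 : ((0 : ℝ), s) ∈ interior Q) (ha : (a, s) ∈ Q) (hb : (b, s) ∈ Q) (hau : a < u)
    (hub : u < b) : (u, s) ∈ interior Q := by
  rcases lt_trichotomy u 0 with h | h | h
  · have ha0 : a < 0 := hau.trans h
    have h3 := hQ.combo_self_interior_mem_interior ha h0 (a := u / a)
      (b := 1 - u / a) (div_nonneg_of_nonpos h.le ha0.le) (by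
        rw [sub_pos, div_lt_one_of_neg ha0]; exact hau) (by ring)
    have h4 : (u / a) • ((a, s) : ℝ × ℝ) + (1 - u / a) • ((0 : ℝ), s) = (u, s) := by
      have := ha0.ne
      ext
      · simp only [Prod.fst_add, Prod.smul_fst, smul_eq_mul, mul_zero, add_zero]
        field_simp
      · simp only [Prod.snd_add, Prod.smul_snd, smul_eq_mul]
        ring
    rwa [h4] at h3
  · rw [h]; exact h0
  · have hb0 : 0 < b := h.trans hub
    have h3 := hQ.combo_self_interior_mem_interior hb h0 (a := u / b)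
      (b := 1 - u / b) (by positivity) (by
        rw [sub_pos, div_lt_one hb0]; exact hub) (by ring)
    have h4 : (u / b) • ((b, s) : ℝ × ℝ) + (1 - u / b) • ((0 : ℝ), s) = (u, s) := by
      have := hb0.ne'
      ext
      · simp only [Prod.fst_add, Prod.smul_fst, smul_eq_mul, mul_zero, add_zero]
        field_simp
      · simp only [Prod.snd_add, Prod.smul_snd, smul_eq_mul]
        ring
    rwa [h4] at h3

/-- The direction `(σ, -τ ρ)` is good at `q`, if `q` is not the last point of its level in the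
direction `σ`, and the level is not the last one in the direction `-τ`. -/
theorem good_dir {Q : Set (ℝ × ℝ)} (hQ : Convex ℝ Q) (h0 : 0 ∈ interior Q)
    (hz : ∀ q ∈ Q, ((0 : ℝ), q.2) ∈ Q) {σ τ : ℝ} (hσ : σ * σ = 1) (hτ : τ * τ = 1)
    {q : ℝ × ℝ} (hq : q ∈ Q) {A : ℝ} (hA : (A, q.2) ∈ Q) (hA1 : σ * q.1 < σ * A)
    {p : ℝ × ℝ} (hp : p ∈ Q) (hp1 : τ * p.2 < τ * q.2) : Gd Q (fun ρ => (σ, -(τ * ρ))) q := by
  by_cases hext : ∃ p' ∈ Q, τ * q.2 < τ * p'.2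
  · -- an interior level
    obtain ⟨p', hp', hp1'⟩ := hext
    have hlev : ((0 : ℝ), q.2) ∈ interior Q := by
      rcases mul_self_eq_one_iff.1 hτ with rfl | rfl
      · exact int_level hQ h0 hz ⟨p', hp', by linarith⟩ ⟨p, hp, by linarith⟩
      · exact int_level hQ h0 hz ⟨p, hp, by linarith⟩ ⟨p', hp', by linarith⟩
    have hmid : ((q.1 + A) / 2, q.2) ∈ interior Q := by
      rcases mul_self_eq_one_iff.1 hσ with rfl | rfl
      · exact int_between hQ hlev (a := q.1) (b := A) hq hA (by linarith) (by linarith)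
      · exact int_between hQ hlev (a := A) (b := q.1) hA hq (by linarith) (by linarith)
    set ε : ℝ := σ * (A - q.1) / 2 with hε
    have hε0 : 0 < ε := by rw [hε]; linarith
    have h2 : Tendsto (fun z : ℝ × (ℝ × ℝ) => z.2 + ε • ((σ, -(τ * z.1)) : ℝ × ℝ))
        (𝓝 ((0 : ℝ), q)) (𝓝 ((q.1 + A) / 2, q.2)) := by
      refine Continuous.tendsto' (by fun_prop) _ _ ?_
      ext
      · simp only [Prod.fst_add, Prod.smul_fst, smul_eq_mul]
        rw [hε]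
        linear_combination ((A - q.1) / 2) * hσ
      · simp
    exact (h2.eventually (isOpen_interior.mem_nhds hmid)).mono fun z hz _ _ => ⟨ε, hε0, hz⟩
  · -- an extreme level
    push Not at hext
    obtain ⟨y, hy, hy1⟩ : ∃ y ∈ interior Q, τ * y.2 < τ * q.2 := by
      have h1 : Tendsto (fun θ : ℝ => τ * ((1 - θ) • p).2) (𝓝[>] 0) (𝓝 (τ * p.2)) := by
        refine Tendsto.mono_left ?_ nhdsWithin_le_nhds
        refine Continuous.tendsto' (by fun_prop) _ _ ?_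
        simp
      have h2 : ∀ᶠ θ : ℝ in 𝓝[>] 0, τ * ((1 - θ) • p).2 < τ * q.2 := h1.eventually_lt_const hp1
      have h3 : ∀ᶠ θ : ℝ in 𝓝[>] 0, θ < 1 :=
        (eventually_lt_nhds (by norm_num)).filter_mono nhdsWithin_le_nhds
      obtain ⟨θ, ⟨h4, h5⟩, h6⟩ := ((h2.and h3).and self_mem_nhdsWithin).exists
      have h6' : 0 < θ := h6
      refine ⟨(1 - θ) • p, ?_, h4⟩
      have := hQ.combo_self_interior_mem_interior hp h0 (a := 1 - θ) (b := θ) (by linarith) h6'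
        (by ring)
      simpa using this
    -- the functions of the proof
    have hX : ∀ᶠ z : ℝ × (ℝ × ℝ) in 𝓝 ((0 : ℝ), q), 0 < σ * (A - z.2.1) := by
      have h1 : Tendsto (fun z : ℝ × (ℝ × ℝ) => σ * (A - z.2.1)) (𝓝 ((0 : ℝ), q))
          (𝓝 (σ * (A - q.1))) := Continuous.tendsto' (by fun_prop) _ _ rfl
      exact h1.eventually_const_lt (by linarith)
    have hD : ∀ᶠ z : ℝ × (ℝ × ℝ) in 𝓝 ((0 : ℝ), q),
        0 < σ * (A - z.2.1) * (τ * (z.2.2 - y.2)) + τ * (q.2 - z.2.2) * (σ * (y.1 - z.2.1)) := by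
      have h1 : Tendsto (fun z : ℝ × (ℝ × ℝ) => σ * (A - z.2.1) * (τ * (z.2.2 - y.2)) +
          τ * (q.2 - z.2.2) * (σ * (y.1 - z.2.1))) (𝓝 ((0 : ℝ), q))
          (𝓝 (σ * (A - q.1) * (τ * (q.2 - y.2)))) := by
        refine Continuous.tendsto' (by fun_prop) _ _ ?_
        simp
      refine h1.eventually_const_lt (mul_pos (by linarith) (by linarith))
    have hW : ∀ᶠ z : ℝ × (ℝ × ℝ) in 𝓝 ((0 : ℝ), q),
        0 < τ * (z.2.2 - y.2) - z.1 * (σ * (y.1 - z.2.1)) := by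
      have h1 : Tendsto (fun z : ℝ × (ℝ × ℝ) => τ * (z.2.2 - y.2) -
          z.1 * (σ * (y.1 - z.2.1))) (𝓝 ((0 : ℝ), q)) (𝓝 (τ * (q.2 - y.2))) := by
        refine Continuous.tendsto' (by fun_prop) _ _ ?_
        simp
      refine h1.eventually_const_lt (by linarith)
    filter_upwards [hX, hD, hW] with z h1 h2 h3 hzQ hz0
    set X : ℝ := σ * (A - z.2.1) with hXd
    set W : ℝ := τ * (z.2.2 - y.2) with hWd
    set Y : ℝ := τ * (q.2 - z.2.2) with hYd
    set Z : ℝ := σ * (y.1 - z.2.1) with hZd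
    have hY0 : 0 ≤ Y := by
      have := hext z.2 hzQ
      rw [hYd]; linarith
    have hcn : Cn Q z.2 ((A, q.2) - z.2) := ⟨1, one_pos, by
      rw [one_smul, add_sub_cancel]; exact hA⟩
    set μ : ℝ := (z.1 * X + Y) / (X * W + Y * Z) with hμ
    set lam : ℝ := (W - z.1 * Z) / (X * W + Y * Z) with hlam
    have hμ0 : 0 < μ := by
      have : 0 < z.1 * X + Y := by positivity
      positivity
    have hlam0 : 0 < lam := by positivity
    have h4 := Co.of hQ (hcn.smul hzQ (c := lam / μ) (by positivity)) hy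
    have h5 := h4.smul hμ0
    have h6 : μ • ((lam / μ) • (((A, q.2) : ℝ × ℝ) - z.2) + (y - z.2)) = (σ, -(τ * z.1)) := by
      have e1 : lam * X + μ * Z = 1 := by
        rw [hlam, hμ, div_mul_eq_mul_div, div_mul_eq_mul_div, ← add_div,
          div_eq_one_iff_eq h2.ne']
        ring
      have e2 : lam * Y - μ * W = -z.1 := by
        rw [hlam, hμ, div_mul_eq_mul_div, div_mul_eq_mul_div, ← sub_div,
          div_eq_iff h2.ne']
        ring
      ext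
      · simp only [Prod.smul_fst, Prod.fst_add, Prod.fst_sub, smul_eq_mul]
        have e3 : μ * (lam / μ * (A - z.2.1) + (y.1 - z.2.1)) =
            lam * (A - z.2.1) + μ * (y.1 - z.2.1) := by
          field_simp
        rw [e3]
        rw [hXd, hZd] at e1
        linear_combination σ * e1 - (lam * (A - z.2.1) + μ * (y.1 - z.2.1)) * hσ
      · simp only [Prod.smul_snd, Prod.snd_add, Prod.snd_sub, smul_eq_mul]
        have e3 : μ * (lam / μ * (q.2 - z.2.2) + (y.2 - z.2.2)) =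
            lam * (q.2 - z.2.2) + μ * (y.2 - z.2.2) := by
          field_simp
        rw [e3]
        rw [hYd, hWd] at e2
        linear_combination τ * e2 - (lam * (q.2 - z.2.2) + μ * (y.2 - z.2.2)) * hτ
    rw [h6] at h5
    exact h5

/-- the maximum of its level -/
def Mx (Q : Set (ℝ × ℝ)) (q : ℝ × ℝ) : Prop := ∀ A : ℝ, (A, q.2) ∈ Q → A ≤ q.1

/-- the minimum of its level -/
def Mn (Q : Set (ℝ × ℝ)) (q : ℝ × ℝ) : Prop := ∀ A : ℝ, (A, q.2) ∈ Q → q.1 ≤ A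

/-- on the top level -/
def Tp (Q : Set (ℝ × ℝ)) (q : ℝ × ℝ) : Prop := ∀ p ∈ Q, p.2 ≤ q.2

/-- on the bottom level -/
def Bt (Q : Set (ℝ × ℝ)) (q : ℝ × ℝ) : Prop := ∀ p ∈ Q, q.2 ≤ p.2

section

variable {Q : Set (ℝ × ℝ)} {q : ℝ × ℝ}

/-- right and down -/
theorem good_rd (hQ : Convex ℝ Q) (h0 : 0 ∈ interior Q) (hz : ∀ q ∈ Q, ((0 : ℝ), q.2) ∈ Q)
    (hq : q ∈ Q) (h1 : ¬ Mx Q q) (h2 : ¬ Bt Q q) : Gd Q (fun ρ => (1, -ρ)) q := by
  unfold Mx at h1
  unfold Bt at h2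
  push Not at h1 h2
  obtain ⟨A, hA, hA1⟩ := h1
  obtain ⟨p, hp, hp1⟩ := h2
  have := good_dir hQ h0 hz (σ := 1) (τ := 1) (by norm_num) (by norm_num) hq hA (by linarith) hp
    (by linarith)
  simpa using this

/-- right and up -/
theorem good_ru (hQ : Convex ℝ Q) (h0 : 0 ∈ interior Q) (hz : ∀ q ∈ Q, ((0 : ℝ), q.2) ∈ Q)
    (hq : q ∈ Q) (h1 : ¬ Mx Q q) (h2 : ¬ Tp Q q) : Gd Q (fun ρ => (1, ρ)) q := by
  unfold Mx at h1
  unfold Tp at h2
  push Not at h1 h2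
  obtain ⟨A, hA, hA1⟩ := h1
  obtain ⟨p, hp, hp1⟩ := h2
  have := good_dir hQ h0 hz (σ := 1) (τ := -1) (by norm_num) (by norm_num) hq hA (by linarith) hp
    (by linarith)
  simpa using this

/-- left and down -/
theorem good_ld (hQ : Convex ℝ Q) (h0 : 0 ∈ interior Q) (hz : ∀ q ∈ Q, ((0 : ℝ), q.2) ∈ Q)
    (hq : q ∈ Q) (h1 : ¬ Mn Q q) (h2 : ¬ Bt Q q) : Gd Q (fun ρ => (-1, -ρ)) q := by
  unfold Mn at h1
  unfold Bt at h2
  push Not at h1 h2
  obtain ⟨A, hA, hA1⟩ := h1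
  obtain ⟨p, hp, hp1⟩ := h2
  have := good_dir hQ h0 hz (σ := -1) (τ := 1) (by norm_num) (by norm_num) hq hA (by linarith) hp
    (by linarith)
  simpa using this

/-- left and up -/
theorem good_lu (hQ : Convex ℝ Q) (h0 : 0 ∈ interior Q) (hz : ∀ q ∈ Q, ((0 : ℝ), q.2) ∈ Q)
    (hq : q ∈ Q) (h1 : ¬ Mn Q q) (h2 : ¬ Tp Q q) : Gd Q (fun ρ => (-1, ρ)) q := by
  unfold Mn at h1
  unfold Tp at h2
  push Not at h1 h2
  obtain ⟨A, hA, hA1⟩ := h1
  obtain ⟨p, hp, hp1⟩ := h2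
  have := good_dir hQ h0 hz (σ := -1) (τ := -1) (by norm_num) (by norm_num) hq hA (by linarith) hp
    (by linarith)
  simpa using this

end

/-- The data of the planar lemma. -/
structure Pd (Q S : Set (ℝ × ℝ)) (κ κ' : ℝ) : Prop where
  conv : Convex ℝ Q
  zero : 0 ∈ interior Q
  comp : IsCompact S
  reg : S ⊆ Reg Q κ κ'
  kpos : 0 < κ
  kpos' : 0 < κ'
  kk : 1 < κ * κ'
  both : ∀ q ∈ Q, (∃ A : ℝ, 0 < A ∧ (A, q.2) ∈ Q) ∧ (∃ A : ℝ, 0 < A ∧ (-A, q.2) ∈ Q)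
  nbl : ∀ q ∈ S, Mn Q q → ∀ p₀ ∈ Q, (Tp Q p₀ ∨ Bt Q p₀) →
    ∃ p ∈ Q, p.2 = p₀.2 ∧ (p.1 ≤ q.1 ∨ κ' * -q.1 ≤ p.1)
  nbu : ∀ q ∈ S, Mx Q q → ∀ p₀ ∈ Q, (Tp Q p₀ ∨ Bt Q p₀) →
    ∃ p ∈ Q, p.2 = p₀.2 ∧ (q.1 ≤ p.1 ∨ p.1 ≤ -(κ * q.1))

section

variable {Q S : Set (ℝ × ℝ)} {κ κ' : ℝ}

theorem Pd.sub (h : Pd Q S κ κ') {q : ℝ × ℝ} (hq : q ∈ S) : q ∈ Q := (h.reg hq).1

theorem Pd.hz (h : Pd Q S κ κ') : ∀ q ∈ Q, ((0 : ℝ), q.2) ∈ Q := by
  intro q hq
  obtain ⟨⟨A, hA, hA1⟩, B, hB, hB1⟩ := h.both q hq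
  exact hconv h.conv hB1 hA1 (by linarith) hA.le

theorem Pd.mn_neg (h : Pd Q S κ κ') {q : ℝ × ℝ} (hq : q ∈ Q) (hm : Mn Q q) : q.1 < 0 := by
  obtain ⟨B, hB, hB1⟩ := (h.both q hq).2
  linarith [hm _ hB1]

theorem Pd.mx_pos (h : Pd Q S κ κ') {q : ℝ × ℝ} (hq : q ∈ Q) (hm : Mx Q q) : 0 < q.1 := by
  obtain ⟨B, hB, hB1⟩ := (h.both q hq).1
  linarith [hm _ hB1]

theorem Pd.mx_mn (h : Pd Q S κ κ') {q : ℝ × ℝ} (hq : q ∈ Q) (hm : Mx Q q) (hm' : Mn Q q) :
    False := by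
  linarith [h.mx_pos hq hm, h.mn_neg hq hm']

theorem Pd.tp_bt (h : Pd Q S κ κ') {q : ℝ × ℝ} (h1 : Tp Q q) (h2 : Bt Q q) : False := by
  have h3 : ((0 : ℝ), (0 : ℝ)) ∈ interior Q := h.zero
  obtain ⟨ε, hε, h4⟩ := Co.of_interior h3 ((0 : ℝ), (1 : ℝ))
  have h5 := h1 _ (interior_subset h4)
  have h6 := h2 _ (interior_subset h3)
  simp at h5 h6
  linarith

/-- A maximum and a minimum of the same level are not both shadows. -/
theorem Pd.excl (h : Pd Q S κ κ') {q q' : ℝ × ℝ} (hq : q ∈ S) (hq' : q' ∈ S) (hm : Mx Q q)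
    (hm' : Mn Q q') (he : q.2 = q'.2) : False := by
  have h1 := h.mx_pos (h.sub hq) hm
  have h2 := h.mn_neg (h.sub hq') hm'
  have h3 := (h.reg hq).2.1
  have h4 := (h.reg hq').2.2
  rw [max_eq_left h1.le] at h3
  rw [max_eq_left (by linarith)] at h4
  have h5 := hm' _ (he ▸ h3)
  have h6 := hm _ (he ▸ h4)
  have h7 := h.kpos
  have h8 := h.kk
  nlinarith [mul_le_mul_of_nonneg_left h6 h7.le, mul_pos (sub_pos.2 h8) (neg_pos.2 h2)]

theorem Pd.bt_eq {q q' : ℝ × ℝ} (hq : q ∈ Q) (hq' : q' ∈ Q) (h1 : Bt Q q) (h2 : Bt Q q') :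
    q.2 = q'.2 := le_antisymm (h1 _ hq') (h2 _ hq)

theorem Pd.tp_eq {q q' : ℝ × ℝ} (hq : q ∈ Q) (hq' : q' ∈ Q) (h1 : Tp Q q) (h2 : Tp Q q') :
    q.2 = q'.2 := le_antisymm (h2 _ hq) (h1 _ hq')

/-- Case (i). -/
theorem Pd.one (h : Pd Q S κ κ') (h1 : ¬ ∃ q ∈ S, Mx Q q ∧ Tp Q q)
    (h2 : ¬ ∃ q ∈ S, Mn Q q ∧ Bt Q q) : ∃ d : Bool → ℝ × ℝ, ∀ q ∈ S, ∃ b, Co Q q (d b) := by
  push Not at h1 h2
  refine Gd.unif h.comp (fun q hq => h.sub hq) (fun ρ => (1, -ρ)) (fun ρ => (-1, ρ)) ?_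
  intro q hq
  have hqQ := h.sub hq
  by_cases h3 : Mx Q q
  · right
    exact good_lu h.conv h.zero h.hz hqQ (fun h4 => h.mx_mn hqQ h3 h4) (h1 q hq h3)
  · by_cases h4 : Bt Q q
    · right
      exact good_lu h.conv h.zero h.hz hqQ (fun h5 => h2 q hq h5 h4) (fun h5 => h.tp_bt h5 h4)
    · left
      exact good_rd h.conv h.zero h.hz hqQ h3 h4

/-- Case (ii). -/
theorem Pd.two (h : Pd Q S κ κ') (h1 : ¬ ∃ q ∈ S, Mx Q q ∧ Bt Q q)
    (h2 : ¬ ∃ q ∈ S, Mn Q q ∧ Tp Q q) : ∃ d : Bool → ℝ × ℝ, ∀ q ∈ S, ∃ b, Co Q q (d b) := by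
  push Not at h1 h2
  refine Gd.unif h.comp (fun q hq => h.sub hq) (fun ρ => (1, ρ)) (fun ρ => (-1, -ρ)) ?_
  intro q hq
  have hqQ := h.sub hq
  by_cases h3 : Mx Q q
  · right
    exact good_ld h.conv h.zero h.hz hqQ (fun h4 => h.mx_mn hqQ h3 h4) (h1 q hq h3)
  · by_cases h4 : Tp Q q
    · right
      exact good_ld h.conv h.zero h.hz hqQ (fun h5 => h2 q hq h5 h4) (fun h5 => h.tp_bt h4 h5)
    · left
      exact good_ru h.conv h.zero h.hz hqQ h3 h4

/-- Case (iii). -/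
theorem Pd.three (h : Pd Q S κ κ') {u v : ℝ × ℝ} (hu : u ∈ S) (hv : v ∈ S) (hux : Mx Q u)
    (hut : Tp Q u) (hvx : Mx Q v) (hvb : Bt Q v) :
    ∃ d : Bool → ℝ × ℝ, ∀ q ∈ S, ∃ b, Co Q q (d b) := by
  have huQ := h.sub hu
  have hvQ := h.sub hv
  have hu0 := h.mx_pos huQ hux
  have hv0 := h.mx_pos hvQ hvx
  have hk := h.kpos
  have hk' := h.kpos'
  have hkk := h.kk
  have hnt : ∀ q ∈ S, Mn Q q → ¬ Tp Q q := fun q hq h1 h2 =>
    h.excl hu hq hux h1 (Pd.tp_eq huQ (h.sub hq) hut h2)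
  have hnb : ∀ q ∈ S, Mn Q q → ¬ Bt Q q := fun q hq h1 h2 =>
    h.excl hv hq hvx h1 (Pd.bt_eq hvQ (h.sub hq) hvb h2)
  by_cases hmin : ∃ q ∈ S, Mn Q q
  · obtain ⟨q₀, hq₀, hm₀⟩ := hmin
    have hq₀Q := h.sub hq₀
    have hq₀0 := h.mn_neg hq₀Q hm₀
    set H : ℝ := -q₀.1 with hH
    have hH0 : 0 < H := by rw [hH]; linarith
    -- the level of `q₀`
    have ht₀ : q₀.2 < u.2 := by
      have h1 := hnt q₀ hq₀ hm₀
      unfold Tp at h1
      push Not at h1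
      obtain ⟨p, hp, hp1⟩ := h1
      exact hp1.trans_le (hut p hp)
    have hb₀ : v.2 < q₀.2 := by
      have h1 := hnb q₀ hq₀ hm₀
      unfold Bt at h1
      push Not at h1
      obtain ⟨p, hp, hp1⟩ := h1
      exact (hvb p hp).trans_lt hp1
    -- the left ends of the top and the bottom
    have key : ∀ w ∈ S, Mx Q w → (Tp Q w ∨ Bt Q w) → (-H, w.2) ∈ Q := by
      intro w hw hwx hwtb
      have hwQ := h.sub hw
      have hw0 := h.mx_pos hwQ hwx
      have h3 := (h.reg hw).2.1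
      rw [max_eq_left hw0.le] at h3
      obtain ⟨p, hp, hp2, hp1⟩ := h.nbl q₀ hq₀ hm₀ w hwQ hwtb
      have hp' : (p.1, w.2) ∈ Q := by rw [← hp2]; exact hp
      rcases hp1 with h4 | h4
      · exact hconv h.conv hp' (b := w.1) hwQ (by rw [hH]; linarith) (by linarith)
      · have h5 := hwx _ hp'
        refine hconv h.conv h3 (b := w.1) hwQ ?_ (by linarith)
        have h6 : κ' * H ≤ w.1 := h4.trans h5
        nlinarith [mul_le_mul_of_nonneg_left h6 hk.le, mul_pos (sub_pos.2 hkk) hH0]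
    have huH := key u hu hux (Or.inl hut)
    have hvH := key v hv hvx (Or.inr hvb)
    -- the left side is vertical
    have hleft : ∀ p ∈ Q, -H ≤ p.1 := by
      intro p hp
      by_contra hcon
      push Not at hcon
      rcases le_or_gt q₀.2 p.2 with h4 | h4
      · -- the segment from `p` to `(-H, v.2)`
        set θ : ℝ := (q₀.2 - v.2) / (p.2 - v.2) with hθ
        have hd : 0 < p.2 - v.2 := by linarith
        have hθ0 : 0 < θ := div_pos (by linarith) hd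
        have hθ1 : θ ≤ 1 := by rw [hθ, div_le_one hd]; linarith
        have h5 := h.conv hp hvH hθ0.le (sub_nonneg.2 hθ1) (by ring)
        have h6 : θ • p + (1 - θ) • ((-H, v.2) : ℝ × ℝ) = (θ * p.1 + (1 - θ) * -H, q₀.2) := by
          ext
          · simp
          · simp only [Prod.snd_add, Prod.smul_snd, smul_eq_mul]
            rw [hθ]
            field_simp
            ring
        rw [h6] at h5
        have h7 := hm₀ _ h5
        nlinarith
      · set θ : ℝ := (u.2 - q₀.2) / (u.2 - p.2) with hθ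
        have hd : 0 < u.2 - p.2 := by linarith
        have hθ0 : 0 < θ := div_pos (by linarith) hd
        have hθ1 : θ ≤ 1 := by rw [hθ, div_le_one hd]; linarith
        have h5 := h.conv hp huH hθ0.le (sub_nonneg.2 hθ1) (by ring)
        have h6 : θ • p + (1 - θ) • ((-H, u.2) : ℝ × ℝ) = (θ * p.1 + (1 - θ) * -H, q₀.2) := by
          ext
          · simp
          · simp only [Prod.snd_add, Prod.smul_snd, smul_eq_mul]
            rw [hθ]
            field_simp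
            ring
        rw [h6] at h5
        have h7 := hm₀ _ h5
        nlinarith
    -- all levels
    have hall : ∀ s : ℝ, v.2 ≤ s → s ≤ u.2 → (-H, s) ∈ Q := by
      intro s hs1 hs2
      have hd : 0 < u.2 - v.2 := by linarith
      set θ : ℝ := (s - v.2) / (u.2 - v.2) with hθ
      have hθ0 : 0 ≤ θ := div_nonneg (by linarith) hd.le
      have hθ1 : θ ≤ 1 := by rw [hθ, div_le_one hd]; linarith
      have h5 := h.conv huH hvH hθ0 (sub_nonneg.2 hθ1) (by ring)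
      have h6 : θ • ((-H, u.2) : ℝ × ℝ) + (1 - θ) • ((-H, v.2) : ℝ × ℝ) = (-H, s) := by
        ext
        · simp; ring
        · simp only [Prod.snd_add, Prod.smul_snd, smul_eq_mul]
          rw [hθ]
          field_simp
          ring
      rwa [h6] at h5
    have hin : ∀ s : ℝ, v.2 < s → s < u.2 → ((0 : ℝ), s) ∈ interior Q := fun s hs1 hs2 =>
      int_level h.conv h.zero h.hz ⟨u, huQ, hs2⟩ ⟨v, hvQ, hs1⟩
    have hκH : (κ' * H, q₀.2) ∈ Q := by
      have h1 := (h.reg hq₀).2.2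
      rwa [max_eq_left (by linarith)] at h1
    have huκ : u.1 < κ' * H := by
      have h3 := (h.reg hu).2.1
      rw [max_eq_left hu0.le] at h3
      have h4 := hleft _ h3
      simp only at h4
      have h5 : κ * u.1 ≤ H := by linarith
      by_contra hcon
      push Not at hcon
      nlinarith [mul_le_mul_of_nonneg_left hcon hk.le, mul_pos (sub_pos.2 hkk) hH0]
    set c : ℝ := (κ' * H - u.1) / (2 * (u.2 - q₀.2)) with hc
    have hc0 : 0 < c := div_pos (by linarith) (by linarith)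
    refine Gd.unif h.comp (fun q hq => h.sub hq) (fun _ => (c, -1)) (fun ρ => (-1, ρ)) ?_
    intro q hq
    have hqQ := h.sub hq
    by_cases h3 : Mn Q q
    · left
      refine Gd.const ?_
      have h4 : q.2 < u.2 := by
        have h1 := hnt q hq h3
        unfold Tp at h1
        push Not at h1
        obtain ⟨p, hp, hp1⟩ := h1
        exact hp1.trans_le (hut p hp)
      have h5 : v.2 < q.2 := by
        have h1 := hnb q hq h3
        unfold Bt at h1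
        push Not at h1
        obtain ⟨p, hp, hp1⟩ := h1
        exact (hvb p hp).trans_lt hp1
      have h6 : q.1 = -H := le_antisymm (h3 _ (hall q.2 h5.le h4.le)) (hleft q hqQ)
      set ε : ℝ := min ((q.2 - v.2) / 2) (H / (2 * c)) with hε
      have hε0 : 0 < ε := lt_min (by linarith) (by positivity)
      have hε1 : ε ≤ (q.2 - v.2) / 2 := min_le_left _ _
      have hε2 : ε * c ≤ H / 2 := by
        have := min_le_right ((q.2 - v.2) / 2) (H / (2 * c))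
        rw [← hε] at this
        calc ε * c ≤ H / (2 * c) * c := mul_le_mul_of_nonneg_right this hc0.le
          _ = H / 2 := by field_simp
      refine ⟨ε, hε0, ?_⟩
      have h7 : q + ε • ((c, -1) : ℝ × ℝ) = (-H + ε * c, q.2 - ε) := by
        ext
        · simp [h6]
        · simp; ring
      rw [h7]
      have hεc : 0 < ε * c := by positivity
      have h8 := hin (q.2 - ε) (by linarith) (by linarith)
      exact int_between h.conv h8 (a := -H) (b := 0)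
        (hall (q.2 - ε) (by linarith) (by linarith)) (interior_subset h8) (by linarith)
        (by linarith)
    · by_cases h4 : Tp Q q
      · left
        refine Gd.const ⟨u.2 - q₀.2, by linarith, ?_⟩
        have h5 : q.2 = u.2 := Pd.tp_eq hqQ huQ h4 hut
        have h6 : q.1 ≤ u.1 := hux q.1 (by rw [← h5]; exact hqQ)
        have h7 : q + (u.2 - q₀.2) • ((c, -1) : ℝ × ℝ) =
            (q.1 + (κ' * H - u.1) / 2, q₀.2) := by
          have : u.2 - q₀.2 ≠ 0 := by linarith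
          ext
          · simp only [Prod.fst_add, Prod.smul_fst, smul_eq_mul]
            rw [hc]
            field_simp
          · simp [h5]
        rw [h7]
        exact int_between h.conv (hin q₀.2 hb₀ ht₀) (a := -H) (b := κ' * H)
          (hall q₀.2 hb₀.le ht₀.le) hκH (by linarith [hleft q hqQ]) (by linarith)
      · right
        exact good_lu h.conv h.zero h.hz hqQ h3 h4
  · -- no minimum
    push Not at hmin
    refine Gd.unif h.comp (fun q hq => h.sub hq) (fun ρ => (-1, -ρ)) (fun ρ => (-1, ρ)) ?_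
    intro q hq
    have hqQ := h.sub hq
    by_cases h3 : Bt Q q
    · right
      exact good_lu h.conv h.zero h.hz hqQ (hmin q hq) (fun h5 => h.tp_bt h5 h3)
    · left
      exact good_ld h.conv h.zero h.hz hqQ (hmin q hq) h3

/-- the reflection -/
noncomputable def rf : (ℝ × ℝ) ≃L[ℝ] (ℝ × ℝ) :=
  (ContinuousLinearEquiv.neg ℝ).prodCongr (ContinuousLinearEquiv.refl ℝ ℝ)

theorem rf_apply (q : ℝ × ℝ) : rf q = (-q.1, q.2) := rfl

theorem rf_rf (q : ℝ × ℝ) : rf (rf q) = q := by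
  rw [rf_apply, rf_apply]; simp

theorem rf_int (Q : Set (ℝ × ℝ)) (q : ℝ × ℝ) : q ∈ interior (rf ⁻¹' Q) ↔ rf q ∈ interior Q := by
  have h : rf.toHomeomorph ⁻¹' (interior Q) = interior (rf.toHomeomorph ⁻¹' Q) :=
    rf.toHomeomorph.preimage_interior Q
  have h1 : rf ⁻¹' Q = rf.toHomeomorph ⁻¹' Q := rfl
  rw [h1, ← h]
  rfl

theorem rf_Mn {q : ℝ × ℝ} (hm : Mn (rf ⁻¹' Q) q) : Mx Q (rf q) := by
  intro A hA
  have h1 := hm (-A) (by
    rw [mem_preimage, rf_apply, neg_neg]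
    exact hA)
  rw [rf_apply]
  simp only
  linarith

theorem rf_Mx {q : ℝ × ℝ} (hm : Mx (rf ⁻¹' Q) q) : Mn Q (rf q) := by
  intro A hA
  have h1 := hm (-A) (by
    rw [mem_preimage, rf_apply, neg_neg]
    exact hA)
  rw [rf_apply]
  simp only
  linarith

theorem rf_Mn' {q : ℝ × ℝ} (hm : Mn Q q) : Mx (rf ⁻¹' Q) (rf q) := by
  intro A hA
  have h1 := hm (-A) hA
  rw [rf_apply]
  simp only
  linarith

theorem rf_Tp {q : ℝ × ℝ} (hm : Tp (rf ⁻¹' Q) q) : Tp Q (rf q) := by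
  intro p hp
  have h1 := hm (rf p) (by rw [mem_preimage, rf_rf]; exact hp)
  exact h1

theorem rf_Bt {q : ℝ × ℝ} (hm : Bt (rf ⁻¹' Q) q) : Bt Q (rf q) := by
  intro p hp
  have h1 := hm (rf p) (by rw [mem_preimage, rf_rf]; exact hp)
  exact h1

theorem rf_Tp' {q : ℝ × ℝ} (hm : Tp Q q) : Tp (rf ⁻¹' Q) (rf q) := by
  intro p hp
  exact hm (rf p) hp

theorem rf_Bt' {q : ℝ × ℝ} (hm : Bt Q q) : Bt (rf ⁻¹' Q) (rf q) := by
  intro p hp
  exact hm (rf p) hp

theorem Pd.refl (h : Pd Q S κ κ') : Pd (rf ⁻¹' Q) (rf ⁻¹' S) κ' κ := by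
  refine ⟨?_, ?_, ?_, ?_, h.kpos', h.kpos, ?_, ?_, ?_, ?_⟩
  · exact h.conv.linear_preimage rf.toLinearEquiv.toLinearMap
  · rw [rf_int, map_zero]
    exact h.zero
  · have h1 : rf ⁻¹' S = rf.toHomeomorph ⁻¹' S := rfl
    rw [h1, ← Homeomorph.image_symm]
    exact h.comp.image (Homeomorph.continuous _)
  · intro q hq
    obtain ⟨h1, h2, h3⟩ := h.reg (show rf q ∈ S from hq)
    refine ⟨h1, ?_, ?_⟩
    · show rf (-κ' * max q.1 0, q.2) ∈ Q
      rw [rf_apply] at h3 ⊢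
      simpa using h3
    · show rf (κ * max (-q.1) 0, q.2) ∈ Q
      rw [rf_apply] at h2 ⊢
      simpa using h2
  · rw [mul_comm]; exact h.kk
  · intro q hq
    obtain ⟨⟨A, hA, hA1⟩, B, hB, hB1⟩ := h.both (rf q) hq
    refine ⟨⟨B, hB, ?_⟩, A, hA, ?_⟩
    · rw [mem_preimage, rf_apply]
      exact hB1
    · rw [mem_preimage, rf_apply, neg_neg]
      exact hA1
  · intro q hq hm p₀ hp₀ h1
    obtain ⟨p, hp, hp1, hp2⟩ := h.nbu (rf q) hq (rf_Mn hm) (rf p₀) hp₀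
      (h1.imp rf_Tp rf_Bt)
    refine ⟨rf p, by rw [mem_preimage, rf_rf]; exact hp, hp1, ?_⟩
    rw [rf_apply] at hp2 ⊢
    simp only at hp2 ⊢
    rcases hp2 with h3 | h3
    · left; linarith
    · right; linarith
  · intro q hq hm p₀ hp₀ h1
    obtain ⟨p, hp, hp1, hp2⟩ := h.nbl (rf q) hq (rf_Mx hm) (rf p₀) hp₀
      (h1.imp rf_Tp rf_Bt)
    refine ⟨rf p, by rw [mem_preimage, rf_rf]; exact hp, hp1, ?_⟩
    rw [rf_apply] at hp2 ⊢
    simp only [neg_neg] at hp2 ⊢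
    rcases hp2 with h3 | h3
    · left; linarith
    · right; linarith

/-- Case (iv). -/
theorem Pd.four (h : Pd Q S κ κ') {u v : ℝ × ℝ} (hu : u ∈ S) (hv : v ∈ S) (hux : Mn Q u)
    (hut : Tp Q u) (hvx : Mn Q v) (hvb : Bt Q v) :
    ∃ d : Bool → ℝ × ℝ, ∀ q ∈ S, ∃ b, Co Q q (d b) := by
  obtain ⟨d, hd⟩ := h.refl.three (u := rf u) (v := rf v) (by rw [mem_preimage, rf_rf]; exact hu)
    (by rw [mem_preimage, rf_rf]; exact hv) (rf_Mn' hux) (rf_Tp' hut) (rf_Mn' hvx) (rf_Bt' hvb)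
  refine ⟨fun b => rf (d b), fun q hq => ?_⟩
  obtain ⟨b, ε, hε, hb⟩ := hd (rf q) (by rw [mem_preimage, rf_rf]; exact hq)
  rw [rf_int, map_add, map_smul, rf_rf] at hb
  exact ⟨b, ε, hε, hb⟩

/-- **The planar lemma.** -/
theorem Pd.main (h : Pd Q S κ κ') : ∃ d : Bool → ℝ × ℝ, ∀ q ∈ S, ∃ b, Co Q q (d b) := by
  by_cases h1 : ∃ q ∈ S, Mx Q q ∧ Tp Q q
  · obtain ⟨u, hu, hux, hut⟩ := h1
    by_cases h2 : ∃ q ∈ S, Mx Q q ∧ Bt Q q
    · obtain ⟨v, hv, hvx, hvb⟩ := h2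
      exact h.three hu hv hux hut hvx hvb
    · refine h.two h2 ?_
      rintro ⟨q, hq, hq1, hq2⟩
      exact h.excl hu hq hux hq1 (Pd.tp_eq (h.sub hu) (h.sub hq) hut hq2)
  · by_cases h2 : ∃ q ∈ S, Mn Q q ∧ Bt Q q
    · obtain ⟨v, hv, hvx, hvb⟩ := h2
      by_cases h3 : ∃ q ∈ S, Mn Q q ∧ Tp Q q
      · obtain ⟨u, hu, hux, hut⟩ := h3
        exact h.four hu hv hux hut hvx hvb
      · refine h.two ?_ h3
        rintro ⟨q, hq, hq1, hq2⟩
        exact h.excl hq hv hq1 hvx (Pd.bt_eq (h.sub hq) (h.sub hv) hq2 hvb)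
    · exact h.one h1 h2

end

end Pool.Agent.Zk76.Pm
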