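import Mathlib
import Pool.Agent.H843R3.Had2.Main
import Pool.Agent.Zk76.Pm.Plane

set_option autoImplicit false
set_option maxHeartbeats 1000000
set_option linter.unusedSectionVars false
set_option linter.unusedVariables false

open Set Topology
open Pool.Agent.H843R3.Had2

namespace Pool.Agent.Zk76.Pm

variable {α : Type*} [Fintype α] [DecidableEq α]

/-- A convex body with `0` in the interior, invariant under permutations of the coordinates. -/
structure Bd (K : Set (Option α → ℝ)) : Prop where
  conv : Convex ℝ K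
  comp : IsCompact K
  zero : (0 : Option α → ℝ) ∈ interior K
  perm : ∀ (σ : Equiv.Perm (Option α)) (x : Option α → ℝ), x ∈ K → (fun i => x (σ i)) ∈ K
  card : 1 ≤ Fintype.card α

variable {K : Set (Option α → ℝ)}

theorem neg_int (K : Set (Option α → ℝ)) (x : Option α → ℝ) :
    x ∈ interior (-K) ↔ -x ∈ interior K := by
  have : (Homeomorph.neg (Option α → ℝ)) ⁻¹' (interior K) =
      interior ((Homeomorph.neg (Option α → ℝ)) ⁻¹' K) :=
    (Homeomorph.neg _).preimage_interior K
  have h1 : (-K) = (Homeomorph.neg (Option α → ℝ)) ⁻¹' K := rfl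
  rw [h1, ← this]
  rfl

theorem Bd.neg (h : Bd K) : Bd (-K) := by
  refine ⟨h.conv.neg, h.comp.neg, ?_, ?_, h.card⟩
  · rw [neg_int, neg_zero]; exact h.zero
  · intro σ x hx
    exact h.perm σ (-x) hx

theorem Co_neg {x v : Option α → ℝ} (h : Co (-K) (-x) v) : Co K x (-v) := by
  obtain ⟨ε, hε, h1⟩ := h
  refine ⟨ε, hε, ?_⟩
  rw [neg_int] at h1
  have h2 : x + ε • -v = -(-x + ε • v) := by rw [neg_add, neg_neg, smul_neg]
  rw [h2]
  exact h1

theorem Qs_neg (q : ℝ × ℝ) : q ∈ Qs (-K) ↔ -q ∈ Qs K := by
  show P α q ∈ -K ↔ P α (-q) ∈ K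
  rw [map_neg, Set.mem_neg]

/-- averaging over the permutations fixing `none` -/
theorem Bd.avg (h : Bd K) {x : Option α → ℝ} (hx : x ∈ K) : P α (Sh x) ∈ K := by
  have hd := h.card
  have hd0 : (0 : ℝ) < Fintype.card α := by exact_mod_cast hd
  set N : ℝ := (Fintype.card (Equiv.Perm α) : ℝ) with hN
  have hN0 : 0 < N := by
    rw [hN]
    exact_mod_cast Fintype.card_pos
  have h1 : ∑ σ : Equiv.Perm α, (1 / N) • (fun i => x ((Equiv.optionCongr σ) i)) ∈ K := by
    refine h.conv.sum_mem (fun _ _ => by positivity) ?_ (fun σ _ => h.perm _ x hx)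
    rw [Finset.sum_const, Finset.card_univ, nsmul_eq_mul]
    field_simp
    exact hN.symm
  have h2 : ∑ σ : Equiv.Perm α, (1 / N) • (fun i => x ((Equiv.optionCongr σ) i)) = P α (Sh x) := by
    rw [← Finset.smul_sum]
    ext i
    rw [Pi.smul_apply, Finset.sum_apply, smul_eq_mul]
    cases i with
    | none =>
      rw [P_Sh_none]
      simp only [Equiv.optionCongr_apply, Option.map_none, Finset.sum_const, Finset.card_univ,
        nsmul_eq_mul]
      rw [← hN]
      field_simp
    | some a =>
      have e3 := perm_sum (fun b : α => x (some b)) a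
      have e5 : ∑ σ : Equiv.Perm α, x ((Equiv.optionCongr σ) (some a)) =
          ∑ σ : Equiv.Perm α, x (some (σ a)) := by
        refine Finset.sum_congr rfl fun σ _ => ?_
        simp
      rw [e5, P_some, Sh]
      simp only
      rw [Fintype.sum_option]
      rw [← hN] at e3
      have e6 : ∑ σ : Equiv.Perm α, x (some (σ a)) =
          N * (∑ b : α, x (some b)) / Fintype.card α := by
        rw [eq_div_iff hd0.ne', mul_comm]
        exact e3
      rw [e6]
      field_simp
      ring
  rw [← h2]
  exact h1

theorem Bd.avg_i (h : Bd K) {x : Option α → ℝ} (hx : x ∈ K) (i : Option α) :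
    P α (x i - (∑ j, x j) / (Fintype.card α + 1), ∑ j, x j) ∈ K := by
  have h1 := h.avg (h.perm (Equiv.swap none i) x hx)
  have h2 : Sh (fun j => x (Equiv.swap none i j)) =
      (x i - (∑ j, x j) / (Fintype.card α + 1), ∑ j, x j) := by
    unfold Sh
    rw [Equiv.sum_comp (Equiv.swap none i) x]
    simp only [Equiv.swap_apply_left]
  rwa [h2] at h1

theorem Bd.Qs_eq (h : Bd K) : Qs K = Sh '' K := by
  ext q
  constructor
  · intro hq
    exact ⟨P α q, hq, Sh_P h.card q⟩
  · rintro ⟨x, hx, rfl⟩
    exact h.avg hx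

theorem Bd.Q_conv (h : Bd K) : Convex ℝ (Qs K) := h.conv.linear_preimage (P α)

theorem Bd.Q_comp (h : Bd K) : IsCompact (Qs K) := by
  rw [h.Qs_eq]
  exact h.comp.image Sh_cont

theorem Bd.Q_int (h : Bd K) {q : ℝ × ℝ} (hq : P α q ∈ interior K) : q ∈ interior (Qs K) := by
  have h1 : (P α) ⁻¹' (interior K) ⊆ interior (Qs K) :=
    interior_maximal (preimage_mono interior_subset) (isOpen_interior.preimage P_cont)
  exact h1 hq

theorem Bd.Q_zero (h : Bd K) : (0 : ℝ × ℝ) ∈ interior (Qs K) := by
  apply h.Q_int
  rw [map_zero]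
  exact h.zero

theorem Bd.P_int (h : Bd K) {q : ℝ × ℝ} (hq : q ∈ interior (Qs K)) : P α q ∈ interior K := by
  obtain ⟨ε, hε, h1⟩ := Co.of_interior hq q
  have h2 : q + ε • q = (1 + ε) • q := by rw [add_smul, one_smul]
  rw [h2] at h1
  have h3 : P α ((1 + ε) • q) ∈ K := by
    have : (1 + ε) • q ∈ Qs K := interior_subset h1
    exact this
  have h4 := h.conv.combo_self_interior_mem_interior h3 h.zero (a := 1 / (1 + ε))
    (b := ε / (1 + ε)) (by positivity) (by positivity) (by field_simp)
  rw [smul_zero, add_zero, map_smul, smul_smul, one_div,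
    inv_mul_cancel₀ (by positivity : (1 + ε) ≠ 0), one_smul] at h4
  exact h4

/-- other sign -/
theorem Bd.Q_opp (h : Bd K) {q : ℝ × ℝ} (hq : q ∈ Qs K) :
    (-q.1 / (Fintype.card α : ℝ), q.2) ∈ Qs K := by
  have hα := h.card
  obtain ⟨a⟩ : Nonempty α := Fintype.card_pos_iff.1 hα
  have h1 := h.avg_i (x := P α q) hq (some a)
  rw [sum_P hα, P_some, add_sub_cancel_right] at h1
  exact h1

theorem Bd.Q_z (h : Bd K) : ∀ q ∈ Qs K, ((0 : ℝ), q.2) ∈ Qs K := by
  intro q hq
  have h1 := h.Q_opp hq
  have hd0 : (0 : ℝ) < Fintype.card α := by exact_mod_cast h.card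
  rcases le_total q.1 0 with h2 | h2
  · exact hconv h.Q_conv (a := q.1) (b := -q.1 / (Fintype.card α : ℝ)) hq h1 h2
      (div_nonneg (by linarith) hd0.le)
  · exact hconv h.Q_conv (a := -q.1 / (Fintype.card α : ℝ)) (b := q.1) h1 hq
      (div_nonpos_of_nonpos_of_nonneg (by linarith) hd0.le) h2

/-- a swap -/
theorem Bd.swap (h : Bd K) {x : Option α → ℝ} (hx : x ∈ K) {a b : Option α}
    (hab : x b < x a) : Cn K x (Pi.single b 1 - Pi.single a 1) := by
  refine ⟨x a - x b, by linarith, ?_⟩
  have h1 := h.perm (Equiv.swap a b) x hx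
  have h2 : x + (x a - x b) • (Pi.single b (1 : ℝ) - Pi.single a (1 : ℝ)) =
      fun i => x (Equiv.swap a b i) := by
    have hne : a ≠ b := by rintro rfl; exact lt_irrefl _ hab
    ext i
    simp only [Pi.add_apply, Pi.smul_apply, Pi.sub_apply, smul_eq_mul]
    by_cases hia : i = a
    · subst hia
      rw [Equiv.swap_apply_left, Pi.single_eq_same, Pi.single_eq_of_ne hne]
      ring
    · by_cases hib : i = b
      · subst hib
        rw [Equiv.swap_apply_right, Pi.single_eq_same, Pi.single_eq_of_ne hia]
        ring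
      · rw [Equiv.swap_apply_of_ne_of_ne hia hib, Pi.single_eq_of_ne hib, Pi.single_eq_of_ne hia]
        ring
  rw [h2]
  exact h1

/-- transport of mass from larger coordinates to smaller coordinates -/
theorem Bd.transport (h : Bd K) {x : Option α → ℝ} (hx : x ∈ K) (v : Option α → ℝ)
    (hv : ∑ i, v i = 0) (hvx : ∀ a b, v a < 0 → 0 < v b → x b < x a) : Cn K x v := by
  set n : Option α → ℝ := fun i => max (-v i) 0 with hn
  set p : Option α → ℝ := fun i => max (v i) 0 with hp
  have hpn : ∀ i, v i = p i - n i := by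
    intro i
    simp only [hn, hp]
    rcases le_total (v i) 0 with h1 | h1
    · rw [max_eq_right h1, max_eq_left (by linarith)]; ring
    · rw [max_eq_left h1, max_eq_right (by linarith)]; ring
  have hn0 : ∀ i, 0 ≤ n i := fun i => le_max_right _ _
  have hp0 : ∀ i, 0 ≤ p i := fun i => le_max_right _ _
  have hsum : ∑ i, p i = ∑ i, n i := by
    have : ∑ i, (p i - n i) = 0 := by
      rw [← hv]
      exact Finset.sum_congr rfl fun i _ => (hpn i).symm
    rw [Finset.sum_sub_distrib] at this
    linarith
  set M := ∑ i, n i with hM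
  have hM0 : 0 ≤ M := Finset.sum_nonneg fun i _ => hn0 i
  rcases hM0.eq_or_lt with h0 | h0
  · have h1 : ∀ i, n i = 0 := fun i =>
      (Finset.sum_eq_zero_iff_of_nonneg (fun i _ => hn0 i)).1 (hM.symm.trans h0.symm) i
        (Finset.mem_univ _)
    have h2 : ∀ i, p i = 0 := fun i =>
      (Finset.sum_eq_zero_iff_of_nonneg (fun i _ => hp0 i)).1 (hsum.trans h0.symm) i
        (Finset.mem_univ _)
    have h3 : v = 0 := by
      ext i
      rw [hpn, h1, h2]
      simp
    rw [h3]
    exact Cn.zero hx
  · have h1 : v = ∑ a, ∑ b, (n a * p b / M) • (Pi.single b (1 : ℝ) - Pi.single a (1 : ℝ)) := by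
      ext i
      simp only [Finset.sum_apply, Pi.smul_apply, Pi.sub_apply, smul_eq_mul, mul_sub,
        Finset.sum_sub_distrib]
      have e1 : ∑ a, ∑ b, n a * p b / M * (Pi.single b (1 : ℝ) : Option α → ℝ) i = p i := by
        have : ∀ a, ∑ b, n a * p b / M * (Pi.single b (1 : ℝ) : Option α → ℝ) i =
            n a * p i / M := by
          intro a
          rw [Finset.sum_eq_single i]
          · simp
          · intro b _ hb
            rw [Pi.single_eq_of_ne (Ne.symm hb), mul_zero]
          · intro h; exact absurd (Finset.mem_univ _) h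
        simp only [this]
        rw [← Finset.sum_div, ← Finset.sum_mul, ← hM]
        field_simp
      have e2 : ∑ a, ∑ b, n a * p b / M * (Pi.single a (1 : ℝ) : Option α → ℝ) i = n i := by
        rw [Finset.sum_eq_single i]
        · simp only [Pi.single_eq_same, mul_one]
          rw [← Finset.sum_div, ← Finset.mul_sum, hsum]
          field_simp
        · intro a _ ha
          simp only [Pi.single_eq_of_ne (Ne.symm ha), mul_zero, Finset.sum_const_zero]
        · intro h; exact absurd (Finset.mem_univ _) h
      rw [e1, e2]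
      exact hpn i
    rw [h1]
    refine Cn.sum h.conv hx _ _ fun a _ => Cn.sum h.conv hx _ _ fun b _ => ?_
    rcases (hn0 a).eq_or_lt with ha | ha
    · rw [← ha, zero_mul, zero_div, zero_smul]
      exact Cn.zero hx
    rcases (hp0 b).eq_or_lt with hb | hb
    · rw [← hb, mul_zero, zero_div, zero_smul]
      exact Cn.zero hx
    have ha' : v a < 0 := by
      by_contra hcon
      have : n a = 0 := max_eq_right (by linarith)
      linarith
    have hb' : 0 < v b := by
      by_contra hcon
      have : p b = 0 := max_eq_right (by linarith)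
      linarith
    exact (h.swap hx (hvx a b ha' hb')).smul hx (by positivity)


theorem Bd.reg_aux (h : Bd K) {x : Option α → ℝ} (hx : x ∈ K) (T : Finset α)
    (hT : T.card < Fintype.card α) (hTx : ∀ a ∈ T, x none ≤ x (some a))
    (hA : 0 ≤ x none - (∑ i, x i) / (Fintype.card α + 1)) :
    (-(((T.card : ℝ) + 1) / (Fintype.card α - T.card)) *
      (x none - (∑ i, x i) / (Fintype.card α + 1)), ∑ i, x i) ∈ Qs K := by
  set μ : ℝ := (∑ i, x i) / (Fintype.card α + 1) with hμ
  set A : ℝ := x none - μ with hAdef
  have hmt : (0 : ℝ) < Fintype.card α - T.card := by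
    rw [sub_pos]; exact_mod_cast hT
  set κ : ℝ := ((T.card : ℝ) + 1) / (Fintype.card α - T.card) with hκ
  have hκ0 : 0 < κ := by positivity
  have key : ∃ b : α, x (some b) - μ ≤ -κ * A := by
    by_contra hcon
    push Not at hcon
    have h1 : ∑ i, (x i - μ) = 0 := by
      rw [Finset.sum_sub_distrib, Finset.sum_const, Finset.card_univ, Fintype.card_option,
        nsmul_eq_mul, hμ]
      push_cast
      field_simp
      ring
    rw [Fintype.sum_option, ← Finset.sum_add_sum_compl T] at h1
    have h2 : (T.card : ℝ) * A ≤ ∑ a ∈ T, (x (some a) - μ) := by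
      rw [← nsmul_eq_mul]
      refine Finset.card_nsmul_le_sum _ _ _ fun a ha => ?_
      have := hTx a ha
      rw [hAdef]
      linarith
    have h3 : ((Fintype.card α : ℝ) - T.card) * (-κ * A) < ∑ a ∈ Tᶜ, (x (some a) - μ) := by
      have h4 : (Tᶜ).card = Fintype.card α - T.card := Finset.card_compl T
      have h5 : ((Tᶜ).card : ℝ) = (Fintype.card α : ℝ) - T.card := by
        rw [h4, Nat.cast_sub hT.le]
      rw [← h5, ← nsmul_eq_mul, ← Finset.sum_const]
      refine Finset.sum_lt_sum_of_nonempty ?_ fun a _ => hcon a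
      rw [← Finset.card_pos, h4]
      omega
    have h6 : ((Fintype.card α : ℝ) - T.card) * (-κ * A) = -(((T.card : ℝ) + 1) * A) := by
      rw [hκ]
      field_simp
    rw [h6] at h3
    change A + _ = 0 at h1
    linarith
  obtain ⟨b, hb⟩ := key
  have h1 : (x (some b) - μ, ∑ i, x i) ∈ Qs K := h.avg_i hx (some b)
  have h2 : ((0 : ℝ), ∑ i, x i) ∈ Qs K := h.Q_z _ h1
  refine hconv h.Q_conv h1 h2 hb ?_
  have : 0 ≤ κ * A := mul_nonneg hκ0.le hA
  linarith

theorem Bd.reg (h : Bd K) {x : Option α → ℝ} (hx : x ∈ K) (T : Finset α)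
    (hT0 : 0 < T.card) (hT : T.card < Fintype.card α) (hTx : ∀ a ∈ T, x none ≤ x (some a))
    (hTx' : ∀ a ∉ T, x (some a) ≤ x none) :
    Sh x ∈ Reg (Qs K) (((T.card : ℝ) + 1) / (Fintype.card α - T.card))
      (((Fintype.card α : ℝ) - T.card + 1) / T.card) := by
  have h0 : Sh x ∈ Qs K := h.avg hx
  have hz : ((0 : ℝ), ∑ i, x i) ∈ Qs K := h.Q_z _ h0
  refine ⟨h0, ?_, ?_⟩
  · show (-(((T.card : ℝ) + 1) / (Fintype.card α - T.card)) *
      max (x none - (∑ i, x i) / (Fintype.card α + 1)) 0, ∑ i, x i) ∈ Qs K
    rcases le_total 0 (x none - (∑ i, x i) / (Fintype.card α + 1)) with h1 | h1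
    · rw [max_eq_left h1]
      exact h.reg_aux hx T hT hTx h1
    · rw [max_eq_right h1, mul_zero]
      exact hz
  · show (((Fintype.card α : ℝ) - T.card + 1) / T.card *
      max (-(x none - (∑ i, x i) / (Fintype.card α + 1))) 0, ∑ i, x i) ∈ Qs K
    rcases le_total 0 (x none - (∑ i, x i) / (Fintype.card α + 1)) with h1 | h1
    · rw [max_eq_right (by linarith), mul_zero]
      exact hz
    · rw [max_eq_left (by linarith)]
      have h4 : (Tᶜ).card = Fintype.card α - T.card := Finset.card_compl T
      have h5 : ((Tᶜ).card : ℝ) = (Fintype.card α : ℝ) - T.card := by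
        rw [h4, Nat.cast_sub hT.le]
      have h6 := h.neg.reg_aux (x := -x) (by rw [Set.mem_neg, neg_neg]; exact hx) Tᶜ (by omega) (by
        intro a ha
        rw [Finset.mem_compl] at ha
        simp only [Pi.neg_apply]
        linarith [hTx' a ha]) (by
        simp only [Pi.neg_apply, Finset.sum_neg_distrib]
        rw [neg_div]
        linarith)
      have h7 := (Qs_neg _).1 h6
      rw [h5] at h7
      simp only [Pi.neg_apply, Finset.sum_neg_distrib, Prod.neg_mk, neg_neg] at h7
      have h8 : -(-(((Fintype.card α : ℝ) - T.card + 1) / (Fintype.card α -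
          ((Fintype.card α : ℝ) - T.card))) * (-x none - -(∑ i, x i) / (Fintype.card α + 1))) =
          ((Fintype.card α : ℝ) - T.card + 1) / T.card *
            -(x none - (∑ i, x i) / (Fintype.card α + 1)) := by
        rw [sub_sub_cancel]
        ring
      rw [h8] at h7
      exact h7

theorem Bd.blockT (h : Bd K) {x : Option α → ℝ} (hx : x ∈ K) (T : Finset α)
    (hT0 : 0 < T.card) (hT : T.card < Fintype.card α)
    (hTx : ∀ a ∈ T, ∀ b ∉ T, x (some b) < x (some a)) {R : ℝ} (hR : ∀ y ∈ K, ∀ i, |y i| ≤ R)
    {d : ℝ × ℝ} {ε : ℝ} (hε : 0 < ε) (hq : Sh x + ε • d ∈ interior (Qs K)) {M : ℝ}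
    (hM : 2 * R < ε * M) : Co K x (M • uT T + P α d) := by
  have hy := h.P_int hq
  have hmt : (1 : ℝ) ≤ Fintype.card α - T.card := by
    have : (T.card : ℝ) + 1 ≤ Fintype.card α := by exact_mod_cast hT
    linarith
  have ht : (1 : ℝ) ≤ T.card := by exact_mod_cast hT0
  have hR0 : 0 ≤ R := (abs_nonneg _).trans (hR x hx none)
  set v : Option α → ℝ := (ε * M) • uT T - (P α (Sh x) - x) with hv
  have hcn : Cn K x v := by
    refine h.transport hx v ?_ ?_
    · rw [hv]
      simp only [Pi.sub_apply, Pi.smul_apply, smul_eq_mul, Finset.sum_sub_distrib]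
      rw [← Finset.mul_sum, sum_uT, sum_P h.card, mul_zero, Sh]
      simp
    · have hnone : v none = 0 := by
        rw [hv]
        simp only [Pi.sub_apply, Pi.smul_apply, smul_eq_mul, P_Sh_none, uT, Option.elim_none]
        ring
      have hbd : ∀ i, |P α (Sh x) i - x i| ≤ 2 * R := by
        intro i
        have h1 := hR _ (h.avg hx) i
        have h2 := hR _ hx i
        have h3 := abs_sub (P α (Sh x) i) (x i)
        linarith
      rintro (_ | a) (_ | b) h1 h2
      · rw [hnone] at h1; exact absurd h1 (lt_irrefl _)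
      · rw [hnone] at h1; exact absurd h1 (lt_irrefl _)
      · rw [hnone] at h2; exact absurd h2 (lt_irrefl _)
      · refine hTx a ?_ b ?_
        · by_contra ha
          have h3 := hbd (some a)
          rw [abs_le] at h3
          rw [hv] at h1
          simp only [Pi.sub_apply, Pi.smul_apply, smul_eq_mul, uT, Option.elim_some,
            if_neg ha] at h1
          nlinarith [mul_nonneg (by linarith : 0 ≤ ε * M) (by linarith : (0 : ℝ) ≤ T.card - 1)]
        · intro hb
          have h3 := hbd (some b)
          rw [abs_le] at h3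
          rw [hv] at h2
          simp only [Pi.sub_apply, Pi.smul_apply, smul_eq_mul, uT, Option.elim_some,
            if_pos hb] at h2
          nlinarith [mul_nonneg (by linarith : 0 ≤ ε * M)
            (by linarith : (0 : ℝ) ≤ (Fintype.card α : ℝ) - T.card - 1)]
  have h1 := Co.of h.conv hcn hy
  have h2 : v + (P α (Sh x + ε • d) - x) = ε • (M • uT T + P α d) := by
    rw [hv, map_add, map_smul, smul_add, smul_smul]
    abel
  rw [h2] at h1
  have h3 := h1.smul (c := 1 / ε) (by positivity)
  rwa [smul_smul, one_div, inv_mul_cancel₀ hε.ne', one_smul] at h3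

theorem Bd.blockTop (h : Bd K) {x : Option α → ℝ} (hx : x ∈ K)
    (hxt : ∀ a, x (some a) < x none) {R : ℝ} (hR : ∀ y ∈ K, ∀ i, |y i| ≤ R) {M ε : ℝ}
    (hM : 2 * R < M) (hq : ((0 : ℝ), (∑ i, x i) + ε) ∈ interior (Qs K)) :
    Co K x (P α (-(Fintype.card α * M), ε)) := by
  have hy := h.P_int hq
  have hm : (1 : ℝ) ≤ Fintype.card α := by exact_mod_cast h.card
  have hR0 : 0 ≤ R := (abs_nonneg _).trans (hR x hx none)
  set s : ℝ := ∑ i, x i with hs
  have hz : P α ((0 : ℝ), s) ∈ K := h.Q_z _ (h.avg hx)
  set v : Option α → ℝ := P α (-(Fintype.card α * M), 0) - (P α (0, s) - x) with hv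
  have hcn : Cn K x v := by
    refine h.transport hx v ?_ ?_
    · rw [hv]
      simp only [Pi.sub_apply, Finset.sum_sub_distrib]
      rw [sum_P h.card, sum_P h.card]
      simp [hs]
    · have hbd : ∀ i, |P α (0, s) i - x i| ≤ 2 * R := by
        intro i
        have h1 := hR _ hz i
        have h2 := hR _ hx i
        have h3 := abs_sub (P α (0, s) i) (x i)
        linarith
      rintro a b h1 h2
      have ha : ∀ a : α, 0 < v (some a) := by
        intro a
        have h3 := hbd (some a)
        rw [abs_le] at h3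
        rw [hv]
        have h4 : P α (-(Fintype.card α * M), 0) (some a) = M := by
          rw [P_some]
          field_simp
          ring
        rw [Pi.sub_apply, h4, Pi.sub_apply]
        linarith
      have hn : v none < 0 := by
        have h3 := hbd none
        rw [abs_le] at h3
        rw [hv]
        have h4 : P α (-(Fintype.card α * M), 0) none = -(Fintype.card α * M) := by
          rw [P_none]
          simp
        rw [Pi.sub_apply, h4, Pi.sub_apply]
        nlinarith
      cases a with
      | some a => exact absurd h1 (not_lt.2 (ha a).le)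
      | none =>
        cases b with
        | none => exact absurd h2 (not_lt.2 hn.le)
        | some b => exact hxt b
  have h1 := Co.of h.conv hcn hy
  have h2 : v + (P α (0, s + ε) - x) = P α (-(Fintype.card α * M), ε) := by
    have e1 : ((-(Fintype.card α * M), ε) : ℝ × ℝ) =
        (-(Fintype.card α * M), 0) + ((0, s + ε) - (0, s)) := by
      ext <;> simp
    rw [e1, map_add, map_sub, hv]
    abel
  rw [h2] at h1
  exact h1

theorem Bd.constTop (h : Bd K) {s : ℝ} (hx : P α (0, s) ∈ K)
    (hA : ∃ A : ℝ, A ≠ 0 ∧ (A, s) ∈ Qs K) {N ε : ℝ}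
    (hN : 0 ≤ N) (hq : ((0 : ℝ), s + ε) ∈ interior (Qs K)) :
    Co K (P α (0, s)) (P α (-N, ε)) := by
  have hy := h.P_int hq
  have hm : (0 : ℝ) < Fintype.card α := by exact_mod_cast h.card
  have hneg : ∃ A : ℝ, 0 < A ∧ (-A, s) ∈ Qs K := by
    obtain ⟨A, hA0, hA1⟩ := hA
    rcases lt_or_gt_of_ne hA0 with h1 | h1
    · exact ⟨-A, by linarith, by rwa [neg_neg]⟩
    · have h2 := h.Q_opp hA1
      refine ⟨A / Fintype.card α, by positivity, ?_⟩
      simp only at h2
      rwa [neg_div] at h2
  obtain ⟨A, hA0, hA1⟩ := hneg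
  have hcn : Cn K (P α (0, s)) (P α (-1, 0)) := by
    refine ⟨A, hA0, ?_⟩
    rw [← map_smul, ← map_add]
    have h1 : (((0 : ℝ), s) : ℝ × ℝ) + A • (((-1 : ℝ), (0 : ℝ)) : ℝ × ℝ) = (-A, s) := by
      ext <;> simp
    rw [h1]
    exact hA1
  have h1 := Co.of h.conv (hcn.smul hx hN) hy
  have h2 : N • P α (-1, 0) + (P α (0, s + ε) - P α (0, s)) = P α (-N, ε) := by
    rw [← map_smul, ← map_sub, ← map_add]
    congr 1
    ext <;> simp
  rw [h2] at h1
  exact h1

theorem Bd.types (h : Bd K) {x : Option α → ℝ} :
    (∀ a, x (some a) < x none) ∨ (∀ a, x none < x (some a)) ∨ x = P α (0, ∑ i, x i) ∨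
    ∃ T : Finset α, 0 < T.card ∧ T.card < Fintype.card α ∧ (∀ a ∈ T, x none ≤ x (some a)) ∧
      (∀ a ∉ T, x (some a) ≤ x none) ∧ (∀ a ∈ T, ∀ b ∉ T, x (some b) < x (some a)) := by
  have hm : (0 : ℝ) < Fintype.card α := by exact_mod_cast h.card
  by_cases htop : ∀ a, x (some a) ≤ x none
  · set T : Finset α := Finset.univ.filter (fun a => x (some a) = x none) with hT
    rcases Nat.eq_zero_or_pos T.card with h0 | h0
    · left
      intro a
      refine lt_of_le_of_ne (htop a) fun hcon => ?_
      have : a ∈ T := by rw [hT]; simp [hcon]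
      rw [Finset.card_eq_zero.1 h0] at this
      exact absurd this (Finset.notMem_empty a)
    · rcases (Finset.card_le_univ T).eq_or_lt with h1 | h1
      · right; right; left
        have h2 : ∀ a, x (some a) = x none := by
          intro a
          have : a ∈ T := by
            rw [(Finset.card_eq_iff_eq_univ T).1 h1]
            exact Finset.mem_univ a
          rw [hT] at this
          simpa using this
        ext i
        have h3 : ∑ i, x i = (Fintype.card α + 1) * x none := by
          rw [Fintype.sum_option, Finset.sum_congr rfl (fun a _ => h2 a), Finset.sum_const,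
            Finset.card_univ, nsmul_eq_mul]
          ring
        cases i with
        | none => rw [P_none, h3]; field_simp; ring
        | some a => rw [P_some, h3, h2]; field_simp; ring
      · right; right; right
        refine ⟨T, h0, h1, ?_, fun a _ => htop a, ?_⟩
        · intro a ha
          rw [hT] at ha
          simp only [Finset.mem_filter, Finset.mem_univ, true_and] at ha
          exact ha.ge
        · intro a ha b hb
          rw [hT] at ha hb
          simp only [Finset.mem_filter, Finset.mem_univ, true_and] at ha hb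
          rw [ha]
          exact lt_of_le_of_ne (htop b) hb
  · push Not at htop
    obtain ⟨a0, ha0⟩ := htop
    set T : Finset α := Finset.univ.filter (fun a => x none < x (some a)) with hT
    have h0 : 0 < T.card := Finset.card_pos.2 ⟨a0, by rw [hT]; simp [ha0]⟩
    rcases (Finset.card_le_univ T).eq_or_lt with h1 | h1
    · right; left
      intro a
      have : a ∈ T := by
        rw [(Finset.card_eq_iff_eq_univ T).1 h1]
        exact Finset.mem_univ a
      rw [hT] at this
      simpa using this
    · right; right; right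
      refine ⟨T, h0, h1, ?_, ?_, ?_⟩
      · intro a ha
        rw [hT] at ha
        simp only [Finset.mem_filter, Finset.mem_univ, true_and] at ha
        exact ha.le
      · intro a ha
        rw [hT] at ha
        simpa using ha
      · intro a ha b hb
        rw [hT] at ha hb
        simp only [Finset.mem_filter, Finset.mem_univ, true_and, not_lt] at ha hb
        exact lt_of_le_of_lt hb ha

end Pool.Agent.Zk76.Pm
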