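import Mathlib
import Pool.Agent.Zk76.Pm.Body

set_option autoImplicit false
set_option maxHeartbeats 1000000
set_option linter.unusedSectionVars false
set_option linter.unusedVariables false

open Set Topology Filter
open Pool.Agent.H843R3.Had2

namespace Pool.Agent.Zk76.Pm

/-- If all nonzero outer normals of `K` at `x` are negative on `d`, then `d` points from `x` into
the interior. -/
theorem co_of_nor {E : Type*} [NormedAddCommGroup E] [NormedSpace ℝ E] {K : Set E}
    (hK : Convex ℝ K) (hi : (interior K).Nonempty) {x d : E} (hx : x ∈ K)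
    (h : ∀ f : E →L[ℝ] ℝ, f ≠ 0 → (∀ z ∈ K, f z ≤ f x) → f d < 0) : Co K x d := by
  by_contra hcon
  have hdis : Disjoint (interior K) ((fun ε : ℝ => x + ε • d) '' Ioi 0) := by
    rw [Set.disjoint_left]
    rintro z hz ⟨ε, hε, rfl⟩
    exact hcon ⟨ε, hε, hz⟩
  have hray : Convex ℝ ((fun ε : ℝ => x + ε • d) '' Ioi 0) := by
    rintro _ ⟨s, hs, rfl⟩ _ ⟨t, ht, rfl⟩ a b ha hb hab
    have hs' : (0 : ℝ) < s := hs
    have ht' : (0 : ℝ) < t := ht
    refine ⟨a * s + b * t, ?_, ?_⟩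
    · show 0 < a * s + b * t
      rcases ha.eq_or_lt with h1 | h1
      · rw [← h1, zero_add] at hab
        rw [← h1, hab]
        linarith
      · have := mul_pos h1 hs'
        have := mul_nonneg hb ht'.le
        linarith
    · simp only
      have : x = (a + b) • x := by rw [hab, one_smul]
      conv_lhs => rw [this]
      module
  obtain ⟨f, u, hf1, hf2⟩ := geometric_hahn_banach_open hK.interior isOpen_interior hray hdis
  have hfx : u ≤ f x := by
    have h1 : Tendsto (fun ε : ℝ => f (x + ε • d)) (𝓝[>] 0) (𝓝 (f x)) := by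
      refine Tendsto.mono_left ?_ nhdsWithin_le_nhds
      exact Continuous.tendsto' (by fun_prop) _ _ (by simp)
    refine ge_of_tendsto h1 ?_
    filter_upwards [self_mem_nhdsWithin] with ε hε
    exact hf2 _ ⟨ε, hε, rfl⟩
  have hle : ∀ z ∈ K, f z ≤ u := by
    intro z hz
    obtain ⟨y, hy⟩ := hi
    have h1 : Tendsto (fun θ : ℝ => f ((1 - θ) • z + θ • y)) (𝓝[>] 0) (𝓝 (f z)) := by
      refine Tendsto.mono_left ?_ nhdsWithin_le_nhds
      exact Continuous.tendsto' (by fun_prop) _ _ (by simp)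
    refine le_of_tendsto h1 ?_
    have h2 : ∀ᶠ θ : ℝ in 𝓝[>] 0, θ < 1 :=
      (eventually_lt_nhds (by norm_num)).filter_mono nhdsWithin_le_nhds
    filter_upwards [self_mem_nhdsWithin, h2] with θ hθ hθ1
    have hθ' : (0 : ℝ) < θ := hθ
    exact (hf1 _ (hK.combo_self_interior_mem_interior hz hy (by linarith) hθ' (by ring))).le
  have hfne : f ≠ 0 := by
    rintro rfl
    obtain ⟨y, hy⟩ := hi
    have h1 := hf1 y hy
    simp only [zero_apply] at h1 hfx
    linarith
  have h1 := h f hfne (fun z hz => (hle z hz).trans hfx)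
  have h2 := hf2 _ ⟨1, mem_Ioi.2 one_pos, rfl⟩
  have h3 : f (x + (1 : ℝ) • d) = f x + f d := by rw [one_smul, map_add]
  simp only at h2
  rw [h3] at h2
  linarith [hle x hx]

variable {ι : Type*} [Fintype ι] [DecidableEq ι]

/-- averaging over a block -/
theorem block_avg {K : Set (ι → ℝ)} (hK : Convex ℝ K)
    (hp : ∀ (σ : Equiv.Perm ι) (x : ι → ℝ), x ∈ K → (fun i => x (σ i)) ∈ K) {x : ι → ℝ}
    (hx : x ∈ K) (C : Finset ι) (hC : C.Nonempty) :
    (fun i => if i ∈ C then (∑ j ∈ C, x j) / C.card else x i) ∈ K := by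
  classical
  have hd0 : (0 : ℝ) < C.card := by exact_mod_cast hC.card_pos
  set N : ℝ := (Fintype.card (Equiv.Perm {i // i ∈ C}) : ℝ) with hN
  have hN0 : 0 < N := by
    rw [hN]
    exact_mod_cast Fintype.card_pos
  have h1 : ∑ σ : Equiv.Perm {i // i ∈ C}, (1 / N) • (fun i => x (Equiv.Perm.ofSubtype σ i)) ∈
      K := by
    refine hK.sum_mem (fun _ _ => by positivity) ?_ (fun σ _ => hp _ x hx)
    rw [Finset.sum_const, Finset.card_univ, nsmul_eq_mul]
    field_simp
    exact hN.symm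
  convert h1 using 1
  rw [← Finset.smul_sum]
  ext i
  rw [Pi.smul_apply, Finset.sum_apply, smul_eq_mul]
  by_cases hi : i ∈ C
  · rw [if_pos hi]
    have e3 := perm_sum (fun b : {i // i ∈ C} => x b) ⟨i, hi⟩
    have e5 : ∑ σ : Equiv.Perm {i // i ∈ C}, x (Equiv.Perm.ofSubtype σ i) =
        ∑ σ : Equiv.Perm {i // i ∈ C}, x (σ ⟨i, hi⟩) := by
      refine Finset.sum_congr rfl fun σ _ => ?_
      rw [Equiv.Perm.ofSubtype_apply_of_mem]
    have e6 : ∑ b : {i // i ∈ C}, x b = ∑ j ∈ C, x j := Finset.sum_coe_sort C x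
    rw [e5]
    rw [← hN, e6, Fintype.card_coe] at e3
    rw [eq_comm, ← mul_right_inj' hd0.ne']
    calc (C.card : ℝ) * (1 / N * ∑ σ : Equiv.Perm {i // i ∈ C}, x (σ ⟨i, hi⟩)) =
        1 / N * ((C.card : ℝ) * ∑ σ : Equiv.Perm {i // i ∈ C}, x (σ ⟨i, hi⟩)) := by ring
      _ = (C.card : ℝ) * ((∑ j ∈ C, x j) / C.card) := by
        rw [e3]
        field_simp
  · rw [if_neg hi]
    have e5 : ∑ σ : Equiv.Perm {i // i ∈ C}, x (Equiv.Perm.ofSubtype σ i) = N * x i := by
      rw [Finset.sum_congr rfl (fun σ _ => by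
        rw [Equiv.Perm.ofSubtype_apply_of_not_mem σ hi]), Finset.sum_const, Finset.card_univ,
        nsmul_eq_mul]
    rw [e5]
    field_simp

/-- The bulge. -/
theorem bulge {K : Set (ι → ℝ)} (hK : Convex ℝ K) (hi : (interior K).Nonempty)
    (hp : ∀ (σ : Equiv.Perm ι) (x : ι → ℝ), x ∈ K → (fun i => x (σ i)) ∈ K) {x y : ι → ℝ}
    (hx : x ∈ K) (hy : y ∈ K) (C : Finset ι) (hC : C.Nonempty) {B H : ℝ}
    (h1 : ∀ i ∈ C, x i - (∑ j, x j) / Fintype.card ι = B)
    (h2 : ∀ i ∉ C, x i - (∑ j, x j) / Fintype.card ι = -H)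
    (h3 : ∀ i, -H < y i - (∑ j, y j) / Fintype.card ι)
    (h4 : ∀ i, y i - (∑ j, y j) / Fintype.card ι < B)
    (hlt : ∑ j, x j < ∑ j, y j) {c : ℝ} (hc : 0 < c) : Co K y (fun _ => -c) := by
  classical
  have hι : 0 < Fintype.card ι := Fintype.card_pos_iff.2 ⟨hC.choose⟩
  have hι' : (0 : ℝ) < Fintype.card ι := by exact_mod_cast hι
  refine co_of_nor hK hi hy fun f hf0 hf => ?_
  by_contra hcon
  push Not at hcon
  set φ : ι → ℝ := fun i => f (Pi.single i 1) with hφ
  have hfz : ∀ z : ι → ℝ, f z = ∑ i, φ i * z i := by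
    intro z
    have h5 : z = ∑ i, z i • (Pi.single i (1 : ℝ) : ι → ℝ) := by
      ext j
      simp [Finset.sum_apply, Pi.single_apply]
    conv_lhs => rw [h5]
    rw [map_sum]
    refine Finset.sum_congr rfl fun i _ => ?_
    rw [map_smul, smul_eq_mul, mul_comm]
  have hsum : ∑ i, φ i ≤ 0 := by
    rw [hfz, ← Finset.sum_mul] at hcon
    by_contra h5
    push Not at h5
    nlinarith
  -- the best permutation
  obtain ⟨σ, hσ⟩ := Finite.exists_max (fun σ : Equiv.Perm ι => ∑ i, φ i * x (σ i))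
  set μ : ℝ := (∑ j, x j) / Fintype.card ι with hμ
  set ν : ℝ := (∑ j, y j) / Fintype.card ι with hν
  have hBH : 0 < B + H := by
    obtain ⟨i, hi⟩ := hC
    linarith [h3 i, h4 i]
  have hex : ∀ i j, σ i ∈ C → σ j ∉ C → φ j ≤ φ i := by
    intro i j hi hj
    have hne : i ≠ j := by rintro rfl; exact hj hi
    have h5 := hσ ((Equiv.swap i j).trans σ)
    simp only [Equiv.trans_apply] at h5
    have h6 : ∑ k, φ k * x (σ (Equiv.swap i j k)) - ∑ k, φ k * x (σ k) =
        (φ i - φ j) * (x (σ j) - x (σ i)) := by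
      rw [← Finset.sum_sub_distrib]
      have h7 : ∀ k, k ≠ i → k ≠ j →
          φ k * x (σ (Equiv.swap i j k)) - φ k * x (σ k) = 0 := by
        intro k h8 h9
        rw [Equiv.swap_apply_of_ne_of_ne h8 h9, sub_self]
      rw [← Finset.sum_subset (Finset.subset_univ {i, j})]
      · rw [Finset.sum_pair hne, Equiv.swap_apply_left, Equiv.swap_apply_right]
        ring
      · intro k _ hk
        simp only [Finset.mem_insert, Finset.mem_singleton, not_or] at hk
        exact h7 k hk.1 hk.2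
    have h8 : x (σ j) - x (σ i) = -(B + H) := by
      have e1 := h1 _ hi
      have e2 := h2 _ hj
      linarith
    rw [h8] at h6
    have h9 : (φ i - φ j) * -(B + H) ≤ 0 := by linarith
    nlinarith
  obtain ⟨k, hk⟩ := hC
  obtain ⟨i₀, hi₀, hmin⟩ := Finset.exists_min_image (Finset.univ.filter (fun i => σ i ∈ C)) φ
    ⟨σ.symm k, by simp [hk]⟩
  simp only [Finset.mem_filter, Finset.mem_univ, true_and] at hi₀ hmin
  set τ : ℝ := φ i₀ with hτ
  have hterm : ∀ i, 0 ≤ (φ i - τ) * ((x (σ i) - μ) - (y i - ν)) := by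
    intro i
    by_cases hi : σ i ∈ C
    · exact mul_nonneg (sub_nonneg.2 (hmin i hi)) (by linarith [h1 _ hi, h4 i])
    · exact mul_nonneg_of_nonpos_of_nonpos (sub_nonpos.2 (hex i₀ i hi₀ hi))
        (by linarith [h2 _ hi, h3 i])
  have hfle := hf _ (hp σ x hx)
  rw [hfz, hfz] at hfle
  have hx0 : ∑ i, (x (σ i) - μ) = 0 := by
    rw [Finset.sum_sub_distrib, Equiv.sum_comp σ x, Finset.sum_const, Finset.card_univ,
      nsmul_eq_mul, hμ]
    field_simp
    ring
  have hy0 : ∑ i, (y i - ν) = 0 := by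
    rw [Finset.sum_sub_distrib, Finset.sum_const, Finset.card_univ, nsmul_eq_mul, hν]
    field_simp
    ring
  have hμν : μ < ν := by
    rw [hμ, hν]
    exact div_lt_div_of_pos_right hlt hι'
  have htot : ∑ i, (φ i - τ) * ((x (σ i) - μ) - (y i - ν)) =
      (∑ i, φ i * x (σ i)) - (∑ i, φ i * y i) + (ν - μ) * ∑ i, φ i := by
    have e1 : ∑ i, (φ i - τ) * ((x (σ i) - μ) - (y i - ν)) =
        (∑ i, φ i * x (σ i)) - (∑ i, φ i * y i) + (ν - μ) * (∑ i, φ i)
          - τ * (∑ i, (x (σ i) - μ)) + τ * ∑ i, (y i - ν) := by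
      rw [Finset.mul_sum, Finset.mul_sum, Finset.mul_sum, ← Finset.sum_sub_distrib,
        ← Finset.sum_add_distrib, ← Finset.sum_sub_distrib, ← Finset.sum_add_distrib]
      refine Finset.sum_congr rfl fun i _ => ?_
      ring
    rw [e1, hx0, hy0]
    ring
  have hνμ : (ν - μ) * ∑ i, φ i ≤ 0 :=
    mul_nonpos_of_nonneg_of_nonpos (by linarith) hsum
  have hzero : ∑ i, (φ i - τ) * ((x (σ i) - μ) - (y i - ν)) = 0 :=
    le_antisymm (by linarith) (Finset.sum_nonneg fun i _ => hterm i)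
  have hall : ∀ i, φ i = τ := by
    intro i
    have h5 := (Finset.sum_eq_zero_iff_of_nonneg (fun i _ => hterm i)).1 hzero i
      (Finset.mem_univ i)
    rcases mul_eq_zero.1 h5 with h6 | h6
    · linarith
    · exfalso
      by_cases hi : σ i ∈ C
      · linarith [h1 _ hi, h4 i]
      · linarith [h2 _ hi, h3 i]
  have hφ0 : ∑ i, φ i = 0 := by
    rcases hsum.eq_or_lt with h5 | h5
    · exact h5
    · have := mul_neg_of_pos_of_neg (by linarith : 0 < ν - μ) h5
      linarith
  have hτ0 : τ = 0 := by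
    rw [Finset.sum_congr rfl (fun i _ => hall i), Finset.sum_const, Finset.card_univ,
      nsmul_eq_mul] at hφ0
    rcases mul_eq_zero.1 hφ0 with h5 | h5
    · exact absurd h5 hι'.ne'
    · exact h5
  refine hf0 ?_
  ext z
  rw [hfz, zero_apply]
  refine Finset.sum_eq_zero fun i _ => ?_
  rw [hall i, hτ0, zero_mul]

end Pool.Agent.Zk76.Pm
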