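import Mathlib
import Pool.Agent.Zk76.Pm.Body

set_option autoImplicit false
set_option maxHeartbeats 1000000
set_option linter.unusedSectionVars false
set_option linter.unusedVariables false

open Set Topology Filter
open Pool.Agent.H843R3.Had2

namespace Pool.Agent.Zk76.Pm

variable {α : Type*} [Fintype α] [DecidableEq α] {K : Set (Option α → ℝ)}

theorem Bd.bound (h : Bd K) : ∃ R : ℝ, 0 ≤ R ∧ ∀ y ∈ K, ∀ i, |y i| ≤ R := by
  obtain ⟨R, hR⟩ := h.comp.isBounded.exists_norm_le
  have h0 : (0 : Option α → ℝ) ∈ K := interior_subset h.zero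
  exact ⟨R, (norm_nonneg _).trans (hR 0 h0), fun y hy i => (norm_le_pi_norm y i).trans (hR y hy)⟩

/-- The top level. -/
theorem Bd.exists_top (h : Bd K) : ∃ H : ℝ, 0 < H ∧ (∃ y ∈ K, ∑ i, y i = H) ∧
    ∀ y ∈ K, ∑ i, y i ≤ H := by
  have h0 : (0 : Option α → ℝ) ∈ K := interior_subset h.zero
  obtain ⟨y, hy, hmax⟩ := h.comp.exists_isMaxOn ⟨0, h0⟩
    (f := fun x : Option α → ℝ => ∑ i, x i) (by fun_prop)
  refine ⟨∑ i, y i, ?_, ⟨y, hy, rfl⟩, fun x hx => hmax hx⟩
  obtain ⟨ε, hε, h1⟩ := Co.of_interior h.zero (P α ((0 : ℝ), (1 : ℝ)))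
  have h2 : ∑ i, (0 + ε • P α ((0 : ℝ), (1 : ℝ))) i ≤ ∑ i, y i := hmax (interior_subset h1)
  simp only [zero_add, Pi.smul_apply, smul_eq_mul] at h2
  rw [← Finset.mul_sum, sum_P h.card] at h2
  linarith

theorem Bd.int_lev (h : Bd K) {s : ℝ} (h1 : ∃ x ∈ K, s < ∑ i, x i) (h2 : ∃ x ∈ K, ∑ i, x i < s) :
    ((0 : ℝ), s) ∈ interior (Qs K) := by
  obtain ⟨x, hx, hx1⟩ := h1
  obtain ⟨y, hy, hy1⟩ := h2
  exact int_level h.Q_conv h.Q_zero h.Q_z ⟨Sh x, h.avg hx, hx1⟩ ⟨Sh y, h.avg hy, hy1⟩

/-- the direction of transport of a level set -/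
noncomputable def uC (C : Finset (Option α)) : Option α → ℝ :=
  fun i => if i ∈ C then -((Fintype.card (Option α) : ℝ) - C.card) else (C.card : ℝ)

theorem sum_uC (C : Finset (Option α)) : ∑ i, uC C i = 0 := by
  simp only [uC]
  rw [← Finset.sum_add_sum_compl C, Finset.sum_congr rfl (fun a ha => if_pos ha),
    Finset.sum_congr rfl (fun a ha => if_neg (Finset.mem_compl.1 ha)), Finset.sum_const,
    Finset.sum_const, nsmul_eq_mul, nsmul_eq_mul]
  have h4 : (Cᶜ).card = Fintype.card (Option α) - C.card := Finset.card_compl C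
  have h5 : ((Cᶜ).card : ℝ) = (Fintype.card (Option α) : ℝ) - C.card := by
    rw [h4, Nat.cast_sub (Finset.card_le_univ C)]
  rw [h5]
  ring

/-- A nonconstant vector is illuminated by the transport of a level set. -/
theorem Bd.blockC (h : Bd K) {x : Option α → ℝ} (hx : x ∈ K) (C : Finset (Option α))
    (hC0 : 0 < C.card) (hC : C.card < Fintype.card (Option α))
    (hCx : ∀ a ∈ C, ∀ b ∉ C, x b < x a) {R : ℝ} (hR : ∀ y ∈ K, ∀ i, |y i| ≤ R)
    {ε : ℝ} (hq : ((0 : ℝ), (∑ i, x i) + ε) ∈ interior (Qs K)) {M : ℝ}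
    (hM : 2 * R < M) : Co K x (M • uC C + P α (0, ε)) := by
  have hy := h.P_int hq
  set s : ℝ := ∑ i, x i with hs
  have hz : P α ((0 : ℝ), s) ∈ K := h.Q_z _ (h.avg hx)
  have hmt : (1 : ℝ) ≤ (Fintype.card (Option α) : ℝ) - C.card := by
    have : (C.card : ℝ) + 1 ≤ Fintype.card (Option α) := by exact_mod_cast hC
    linarith
  have ht : (1 : ℝ) ≤ C.card := by exact_mod_cast hC0
  have hR0 : 0 ≤ R := (abs_nonneg _).trans (hR x hx none)
  set v : Option α → ℝ := M • uC C - (P α (0, s) - x) with hv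
  have hcn : Cn K x v := by
    refine h.transport hx v ?_ ?_
    · rw [hv]
      simp only [Pi.sub_apply, Pi.smul_apply, smul_eq_mul, Finset.sum_sub_distrib]
      rw [← Finset.mul_sum, sum_uC, sum_P h.card, mul_zero]
      simp [hs]
    · have hbd : ∀ i, |P α (0, s) i - x i| ≤ 2 * R := by
        intro i
        have h1 := hR _ hz i
        have h2 := hR _ hx i
        have h3 := abs_sub (P α (0, s) i) (x i)
        linarith
      intro a b h1 h2
      refine hCx a ?_ b ?_
      · by_contra ha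
        have h3 := hbd a
        rw [abs_le] at h3
        rw [hv] at h1
        simp only [Pi.sub_apply, Pi.smul_apply, smul_eq_mul, uC, if_neg ha] at h1
        nlinarith [mul_nonneg (by linarith : 0 ≤ M) (by linarith : (0 : ℝ) ≤ C.card - 1)]
      · intro hb
        have h3 := hbd b
        rw [abs_le] at h3
        rw [hv] at h2
        simp only [Pi.sub_apply, Pi.smul_apply, smul_eq_mul, uC, if_pos hb] at h2
        nlinarith [mul_nonneg (by linarith : 0 ≤ M)
          (by linarith : (0 : ℝ) ≤ (Fintype.card (Option α) : ℝ) - C.card - 1)]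
  have h1 := Co.of h.conv hcn hy
  have h2 : v + (P α (0, s + ε) - x) = M • uC C + P α (0, ε) := by
    have e1 : (((0 : ℝ), s + ε) : ℝ × ℝ) = (0, s) + (0, ε) := by
      ext <;> simp
    rw [e1, map_add, hv]
    abel
  rw [h2] at h1
  exact h1

/-- a level set of a nonconstant vector -/
theorem types_C (x : Option α → ℝ) : x = (fun _ => x none) ∨
    ∃ C : Finset (Option α), 0 < C.card ∧ C.card < Fintype.card (Option α) ∧
      ∀ a ∈ C, ∀ b ∉ C, x b < x a := by
  by_cases h : ∀ i, x i = x none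
  · left
    ext i
    exact h i
  · right
    push Not at h
    obtain ⟨j, hj⟩ := h
    obtain ⟨k, hk⟩ := Finite.exists_max x
    refine ⟨Finset.univ.filter (fun i => x i = x k), ?_, ?_, ?_⟩
    · exact Finset.card_pos.2 ⟨k, by simp⟩
    · refine Finset.card_lt_univ_of_notMem (x := if x none = x k then j else none) ?_
      simp only [Finset.mem_filter, Finset.mem_univ, true_and]
      split_ifs with h1
      · rw [← h1]; exact hj
      · exact h1
    · intro a ha b hb
      simp only [Finset.mem_filter, Finset.mem_univ, true_and] at ha hb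
      rw [ha]
      exact lt_of_le_of_ne (hk b) hb

/-- **Case A**: all points of the top level are illuminated by the vertical direction. -/
theorem Bd.caseA (h : Bd K) (hA : ∀ y ∈ K, (∀ x ∈ K, ∑ i, x i ≤ ∑ i, y i) →
    Co K y (P α (0, -1))) :
    ∃ w : Finset (Option α) → (Option α → ℝ), ∀ x ∈ K, ∃ j, Co K x (w j) := by
  obtain ⟨R, hR0, hR⟩ := h.bound
  obtain ⟨H, hH0, ⟨y₀, hy₀, hy₀H⟩, hH⟩ := h.exists_top
  obtain ⟨H', hH0', ⟨y₁, hy₁, hy₁H⟩, hH'⟩ := h.neg.exists_top
  -- the caps
  obtain ⟨δ, hδ0, hδH, hδ⟩ : ∃ δ : ℝ, 0 < δ ∧ δ ≤ H ∧ ∀ x ∈ K, H - δ < ∑ i, x i →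
      Co K x (P α (0, -1)) := by
    have hV : IsOpen {x : Option α → ℝ | Co K x (P α (0, -1))} := by
      rw [isOpen_iff_mem_nhds]
      rintro x ⟨ε, hε, hx⟩
      have h1 : Tendsto (fun z : Option α → ℝ => z + ε • P α (0, -1)) (𝓝 x)
          (𝓝 (x + ε • P α (0, -1))) := Continuous.tendsto' (by fun_prop) _ _ rfl
      exact (h1.eventually (isOpen_interior.mem_nhds hx)).mono fun z hz => ⟨ε, hε, hz⟩
    have hC : IsCompact (K \ {x : Option α → ℝ | Co K x (P α (0, -1))}) := h.comp.diff hV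
    rcases (K \ {x : Option α → ℝ | Co K x (P α (0, -1))}).eq_empty_or_nonempty with h1 | h1
    · refine ⟨H, hH0, le_rfl, fun x hx _ => ?_⟩
      by_contra hcon
      have : x ∈ K \ {x : Option α → ℝ | Co K x (P α (0, -1))} := ⟨hx, hcon⟩
      rw [h1] at this
      exact absurd this (notMem_empty x)
    · obtain ⟨x0, hx0, hmax⟩ := hC.exists_isMaxOn h1
        (f := fun x : Option α → ℝ => ∑ i, x i) (by fun_prop)
      have hmax' : ∀ x ∈ K \ {x : Option α → ℝ | Co K x (P α (0, -1))},
          ∑ i, x i ≤ ∑ i, x0 i := fun x hx => hmax hx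
      have h2 : ∑ i, x0 i ≤ H := hH _ hx0.1
      have h3 : ∑ i, x0 i ≠ H := by
        intro hcon
        refine hx0.2 (hA x0 hx0.1 fun x hx => ?_)
        rw [hcon]
        exact hH x hx
      have h4 : ∑ i, x0 i < H := lt_of_le_of_ne h2 h3
      refine ⟨min (H - ∑ i, x0 i) H, lt_min (by linarith) hH0, min_le_right _ _,
        fun x hx h4 => ?_⟩
      by_contra hcon
      have h5 := hmax' x ⟨hx, hcon⟩
      have h6 := min_le_left (H - ∑ i, x0 i) H
      linarith
  have hbot : ∀ x ∈ K, -H' ≤ ∑ i, x i := by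
    intro x hx
    have h1 := hH' (-x) (by rw [Set.mem_neg, neg_neg]; exact hx)
    simp only [Pi.neg_apply, Finset.sum_neg_distrib] at h1
    linarith
  have hbx : ∑ i, (-y₁) i = -H' := by
    simp only [Pi.neg_apply, Finset.sum_neg_distrib]
    rw [hy₁H]
  have hin : ∀ s : ℝ, -H' < s → s < H → ((0 : ℝ), s) ∈ interior (Qs K) := by
    intro s hs1 hs2
    exact h.int_lev ⟨y₀, hy₀, by rw [hy₀H]; exact hs2⟩ ⟨-y₁, hy₁, by rw [hbx]; exact hs1⟩
  refine ⟨fun C => if C = ∅ then P α (0, -1) else if C = Finset.univ then P α (0, δ / 2) else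
    (2 * R + 1) • uC C + P α (0, δ / 2), fun x hx => ?_⟩
  by_cases h1 : H - δ < ∑ i, x i
  · refine ⟨∅, ?_⟩
    simp only [if_true]
    exact hδ x hx h1
  · push Not at h1
    have h2 : ((0 : ℝ), (∑ i, x i) + δ / 2) ∈ interior (Qs K) :=
      hin _ (by linarith [hbot x hx]) (by linarith)
    rcases types_C x with h3 | ⟨C, hC0, hC1, hC2⟩
    · refine ⟨Finset.univ, ?_⟩
      have h4 : (Finset.univ : Finset (Option α)) ≠ ∅ :=
        Finset.nonempty_iff_ne_empty.1 Finset.univ_nonempty
      simp only [if_neg h4, if_true]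
      refine ⟨1, one_pos, ?_⟩
      have h5 : x + (1 : ℝ) • P α (0, δ / 2) = P α (0, (∑ i, x i) + δ / 2) := by
        have h6 : x = P α (0, ∑ i, x i) := by
          have hm : (0 : ℝ) < Fintype.card α := by exact_mod_cast h.card
          have h7 : ∑ i, x i = (Fintype.card α + 1) * x none := by
            rw [Finset.sum_congr rfl (fun i _ => congrFun h3 i), Finset.sum_const,
              Finset.card_univ, nsmul_eq_mul, Fintype.card_option]
            push_cast
            ring
          ext i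
          rw [congrFun h3 i]
          cases i with
          | none => rw [P_none, h7]; field_simp; ring
          | some a => rw [P_some, h7]; field_simp; ring
        conv_lhs => rw [h6]
        rw [one_smul, ← map_add]
        congr 1
        ext <;> simp
      rw [h5]
      exact h.P_int h2
    · refine ⟨C, ?_⟩
      have h7 : C ≠ ∅ := by rintro rfl; simp at hC0
      have h8 : C ≠ Finset.univ := by rintro rfl; simp at hC1
      simp only [if_neg h7, if_neg h8]
      exact h.blockC hx C hC0 hC1 hC2 hR h2 (by linarith)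

end Pool.Agent.Zk76.Pm
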