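import Mathlib
import Pool.Agent.Zk76.Pm.Bulge
import Pool.Agent.Zk76.Pm.Caps

set_option autoImplicit false
set_option maxHeartbeats 1000000
set_option linter.unusedSectionVars false
set_option linter.unusedVariables false

open Set Topology Filter
open Pool.Agent.H843R3.Had2

namespace Pool.Agent.Zk76.Pm

variable {α : Type*} [Fintype α] [DecidableEq α] {K : Set (Option α → ℝ)}

/-- The top level is not illuminated by the vertical direction. -/
def Bad (K : Set (Option α → ℝ)) : Prop :=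
  ∃ y ∈ K, (∀ x ∈ K, ∑ i, x i ≤ ∑ i, y i) ∧ ¬ Co K y (P α (0, -1))

omit [DecidableEq α] in
theorem P_down : P α (0, -1) = fun _ => -(1 / ((Fintype.card α : ℝ) + 1)) := by
  ext i
  cases i with
  | none => rw [P_none]; ring
  | some a => rw [P_some]; ring

theorem Bd.Tp_of (h : Bd K) {y : Option α → ℝ} (hy : y ∈ K) (hm : ∀ x ∈ K, ∑ i, x i ≤ ∑ i, y i)
    {p : ℝ × ℝ} (hp : p ∈ Qs K) (ht : Tp (Qs K) p) : ∑ i, y i = p.2 := by
  refine le_antisymm (ht (Sh y) (h.avg hy)) ?_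
  have := hm _ hp
  rwa [sum_P h.card] at this

theorem Bd.top_nondeg (h : Bd K) (hb : Bad K) {p : ℝ × ℝ} (hp : p ∈ Qs K) (ht : Tp (Qs K) p) :
    ∃ A : ℝ, A ≠ 0 ∧ (A, p.2) ∈ Qs K := by
  by_contra hcon
  push Not at hcon
  have hc : ∀ A : ℝ, (A, p.2) ∈ Qs K → A = 0 := by
    intro A hA
    by_contra h1
    exact hcon A h1 hA
  obtain ⟨y, hy, hm, hbad⟩ := hb
  have hyp := h.Tp_of hy hm hp ht
  have hy1 : y = P α (0, p.2) := by
    ext i
    have h5 := h.avg_i hy i
    rw [hyp] at h5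
    have h6 := hc _ h5
    cases i with
    | none => rw [P_none]; linarith
    | some a => rw [P_some]; simp only [neg_zero, zero_div]; linarith
  have hp0 : 0 < p.2 := by
    obtain ⟨H, hH, ⟨z, hz, hz1⟩, _⟩ := h.exists_top
    have := hm z hz
    linarith
  have h1 : ((0 : ℝ), p.2 / 2) ∈ interior (Qs K) :=
    int_level h.Q_conv h.Q_zero h.Q_z ⟨p, hp, by linarith⟩
      ⟨0, interior_subset h.Q_zero, by show (0 : ℝ) < p.2 / 2; linarith⟩
  refine hbad ⟨p.2 / 2, by linarith, ?_⟩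
  rw [hy1, ← map_smul, ← map_add]
  have h2 : (((0 : ℝ), p.2) : ℝ × ℝ) + (p.2 / 2) • (((0 : ℝ), (-1 : ℝ)) : ℝ × ℝ) =
      (0, p.2 / 2) := by
    ext
    · simp
    · simp only [Prod.snd_add, Prod.smul_snd, smul_eq_mul]; ring
  rw [h2]
  exact h.P_int h1

theorem neg_int_Q (q : ℝ × ℝ) : q ∈ interior (Qs K) ↔ -q ∈ interior (Qs (-K)) := by
  have h1 : Qs (-K) = (Homeomorph.neg (ℝ × ℝ)) ⁻¹' (Qs K) := by
    ext p
    rw [Qs_neg]
    rfl
  rw [h1, ← Homeomorph.preimage_interior]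
  show q ∈ interior (Qs K) ↔ -(-q) ∈ interior (Qs K)
  rw [neg_neg]

theorem Bd.Tp_neg {p : ℝ × ℝ} (ht : Bt (Qs K) p) : Tp (Qs (-K)) (-p) := by
  intro q hq
  have := ht (-q) ((Qs_neg q).1 hq)
  simp only [Prod.snd_neg] at this ⊢
  linarith

theorem Bd.nondeg (h : Bd K) (hb : Bad K) (hb' : Bad (-K)) {p : ℝ × ℝ} (hp : p ∈ Qs K) :
    ∃ A : ℝ, A ≠ 0 ∧ (A, p.2) ∈ Qs K := by
  by_cases h1 : Tp (Qs K) p
  · exact h.top_nondeg hb hp h1
  by_cases h2 : Bt (Qs K) p
  · obtain ⟨A, hA, hA1⟩ := h.neg.top_nondeg hb' (p := -p) ((Qs_neg _).2 (by rwa [neg_neg]))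
      (Bd.Tp_neg h2)
    refine ⟨-A, neg_ne_zero.2 hA, ?_⟩
    have h3 := (Qs_neg _).1 hA1
    simpa using h3
  unfold Tp at h1
  unfold Bt at h2
  push Not at h1 h2
  obtain ⟨ε, hε, h3⟩ := Co.of_interior (int_level h.Q_conv h.Q_zero h.Q_z h1 h2)
    ((1 : ℝ), (0 : ℝ))
  have h4 : (((0 : ℝ), p.2) : ℝ × ℝ) + ε • ((1 : ℝ), (0 : ℝ)) = (ε, p.2) := by
    ext <;> simp
  rw [h4] at h3
  exact ⟨ε, hε.ne', interior_subset h3⟩

theorem Bd.both (h : Bd K) (hb : Bad K) (hb' : Bad (-K)) (q : ℝ × ℝ) (hq : q ∈ Qs K) :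
    (∃ A : ℝ, 0 < A ∧ (A, q.2) ∈ Qs K) ∧ (∃ A : ℝ, 0 < A ∧ (-A, q.2) ∈ Qs K) := by
  obtain ⟨A, hA0, hA⟩ := h.nondeg hb hb' hq
  have hm : (0 : ℝ) < Fintype.card α := by exact_mod_cast h.card
  have h1 := h.Q_opp hA
  rcases lt_or_gt_of_ne hA0 with h2 | h2
  · refine ⟨⟨-A / Fintype.card α, div_pos (by linarith) hm, h1⟩, -A, by linarith, ?_⟩
    rwa [neg_neg]
  · refine ⟨⟨A, h2, hA⟩, A / Fintype.card α, by positivity, ?_⟩
    rw [← neg_div]
    exact h1

/-- No bulge. -/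
theorem Bd.nb_top (h : Bd K) (hb : Bad K) {x : Option α → ℝ} (hx : x ∈ K)
    (C : Finset (Option α)) (hC : C.Nonempty) {B H : ℝ}
    (h1 : ∀ i ∈ C, x i - (∑ j, x j) / Fintype.card (Option α) = B)
    (h2 : ∀ i ∉ C, x i - (∑ j, x j) / Fintype.card (Option α) = -H)
    {p₀ : ℝ × ℝ} (hp₀ : p₀ ∈ Qs K) (ht : Tp (Qs K) p₀) :
    ∃ p ∈ Qs K, p.2 = p₀.2 ∧ (p.1 ≤ -H ∨ B ≤ p.1) := by
  by_contra hcon
  push Not at hcon
  obtain ⟨y, hy, hm, hbad⟩ := hb
  have hyp := h.Tp_of hy hm hp₀ ht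
  have hN : (Fintype.card (Option α) : ℝ) = (Fintype.card α : ℝ) + 1 := by
    rw [Fintype.card_option]; push_cast; ring
  have hs : ∑ j, x j < ∑ j, y j := by
    rw [hyp]
    refine lt_of_le_of_ne (ht (Sh x) (h.avg hx)) fun hcon2 => ?_
    obtain ⟨i, hi⟩ := hC
    have h3 := hcon _ (h.avg_i hx i) hcon2
    have h4 := h1 i hi
    rw [hN] at h4
    simp only at h3
    rw [h4] at h3
    exact lt_irrefl _ h3.2
  have h3 : ∀ i, -H < y i - (∑ j, y j) / Fintype.card (Option α) ∧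
      y i - (∑ j, y j) / Fintype.card (Option α) < B := by
    intro i
    have := hcon _ (h.avg_i hy i) hyp
    rw [hN]
    exact this
  have h4 := bulge h.conv ⟨0, h.zero⟩ h.perm hx hy C hC h1 h2 (fun i => (h3 i).1)
    (fun i => (h3 i).2) hs (c := 1 / ((Fintype.card α : ℝ) + 1)) (by positivity)
  rw [← P_down] at h4
  exact hbad h4

theorem Bd.nb (h : Bd K) (hb : Bad K) (hb' : Bad (-K)) {x : Option α → ℝ} (hx : x ∈ K)
    (C : Finset (Option α)) (hC : C.Nonempty) (hC' : (Cᶜ).Nonempty) {B H : ℝ}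
    (h1 : ∀ i ∈ C, x i - (∑ j, x j) / Fintype.card (Option α) = B)
    (h2 : ∀ i ∉ C, x i - (∑ j, x j) / Fintype.card (Option α) = -H)
    {p₀ : ℝ × ℝ} (hp₀ : p₀ ∈ Qs K) (ht : Tp (Qs K) p₀ ∨ Bt (Qs K) p₀) :
    ∃ p ∈ Qs K, p.2 = p₀.2 ∧ (p.1 ≤ -H ∨ B ≤ p.1) := by
  rcases ht with ht | ht
  · exact h.nb_top hb hx C hC h1 h2 hp₀ ht
  · obtain ⟨p, hp, hp1, hp2⟩ := h.neg.nb_top hb' (x := -x) (by rwa [Set.mem_neg, neg_neg]) Cᶜ hC'
      (B := H) (H := B) (by
        intro i hi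
        have := h2 i (Finset.mem_compl.1 hi)
        simp only [Pi.neg_apply, Finset.sum_neg_distrib, neg_div]
        linarith) (by
        intro i hi
        have := h1 i (by simpa using hi)
        simp only [Pi.neg_apply, Finset.sum_neg_distrib, neg_div]
        linarith) (p₀ := -p₀) ((Qs_neg _).2 (by rwa [neg_neg])) (Bd.Tp_neg ht)
    refine ⟨-p, (Qs_neg _).1 hp, ?_, ?_⟩
    · simp only [Prod.snd_neg] at hp1 ⊢
      linarith
    · simp only [Prod.fst_neg]
      rcases hp2 with h3 | h3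
      · right; linarith
      · left; linarith

/-- flattening of a block -/
theorem Bd.blk (h : Bd K) {x : Option α → ℝ} (hx : x ∈ K) (E : Finset (Option α))
    (hE : E.Nonempty) {v : ℝ}
    (h1 : ∀ i ∉ E, x i - (∑ j, x j) / Fintype.card (Option α) = v) :
    ∃ x' ∈ K, (∀ i ∉ E, x' i - (∑ j, x' j) / Fintype.card (Option α) = v) ∧
      ∀ i ∈ E, x' i - (∑ j, x' j) / Fintype.card (Option α) =
        -((((Fintype.card (Option α) : ℝ) - E.card) / E.card) * v) := by
  have hN : (0 : ℝ) < Fintype.card (Option α) := by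
    exact_mod_cast Fintype.card_pos
  have he : (0 : ℝ) < E.card := by exact_mod_cast hE.card_pos
  set x' : Option α → ℝ := fun i => if i ∈ E then (∑ j ∈ E, x j) / E.card else x i with hx'
  have hsE : ∑ i ∈ E, x' i = ∑ i ∈ E, x i := by
    rw [Finset.sum_congr rfl (fun i hi => if_pos hi), Finset.sum_const, nsmul_eq_mul]
    field_simp
  have hsE' : ∑ i ∈ Eᶜ, x' i = ∑ i ∈ Eᶜ, x i :=
    Finset.sum_congr rfl (fun i hi => if_neg (Finset.mem_compl.1 hi))
  have hs : ∑ i, x' i = ∑ i, x i := by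
    rw [← Finset.sum_add_sum_compl E, ← Finset.sum_add_sum_compl E x, hsE, hsE']
  refine ⟨x', block_avg h.conv h.perm hx E hE, ?_, ?_⟩
  · intro i hi
    rw [hs]
    have : x' i = x i := if_neg hi
    rw [this]
    exact h1 i hi
  · intro i hi
    rw [hs]
    have e1 : x' i = (∑ j ∈ E, x j) / E.card := if_pos hi
    rw [e1]
    set s : ℝ := ∑ j, x j with hs'
    have h4 : (Eᶜ).card = Fintype.card (Option α) - E.card := Finset.card_compl E
    have h5 : ((Eᶜ).card : ℝ) = (Fintype.card (Option α) : ℝ) - E.card := by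
      rw [h4, Nat.cast_sub (Finset.card_le_univ E)]
    have e2 : ∑ i ∈ Eᶜ, x i = ((Fintype.card (Option α) : ℝ) - E.card) *
        (s / Fintype.card (Option α) + v) := by
      rw [← h5, ← nsmul_eq_mul, ← Finset.sum_const]
      refine Finset.sum_congr rfl fun i hi => ?_
      have := h1 i (Finset.mem_compl.1 hi)
      linarith
    have e3 : ∑ i ∈ E, x i = s - ((Fintype.card (Option α) : ℝ) - E.card) *
        (s / Fintype.card (Option α) + v) := by
      rw [← e2, hs', ← Finset.sum_add_sum_compl E]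
      ring
    rw [e3]
    field_simp
    ring

/-- the points of type `T` -/
def CT (K : Set (Option α → ℝ)) (T : Finset α) : Set (Option α → ℝ) :=
  {x | x ∈ K ∧ (∀ a ∈ T, x none ≤ x (some a)) ∧ ∀ a, a ∉ T → x (some a) ≤ x none}

theorem Bd.CT_comp (h : Bd K) (T : Finset α) : IsCompact (CT K T) := by
  have h1 : CT K T = K ∩ ((⋂ a ∈ T, {x | x none ≤ x (some a)}) ∩
      ⋂ a ∈ {a : α | a ∉ T}, {x | x (some a) ≤ x none}) := by
    ext x
    simp only [CT, mem_ofPred_eq, mem_inter_iff, mem_iInter]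
  rw [h1]
  refine h.comp.inter_right (IsClosed.inter ?_ ?_)
  · exact isClosed_biInter fun a _ => isClosed_le (continuous_apply _) (continuous_apply _)
  · exact isClosed_biInter fun a _ => isClosed_le (continuous_apply _) (continuous_apply _)

theorem Bd.pd (h : Bd K) (hb : Bad K) (hb' : Bad (-K)) (T : Finset α) (hT0 : 0 < T.card)
    (hT : T.card < Fintype.card α) :
    Pd (Qs K) (Sh '' CT K T) (((T.card : ℝ) + 1) / (Fintype.card α - T.card))
      (((Fintype.card α : ℝ) - T.card + 1) / T.card) := by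
  have hmt : (1 : ℝ) ≤ Fintype.card α - T.card := by
    have : (T.card : ℝ) + 1 ≤ Fintype.card α := by exact_mod_cast hT
    linarith
  have ht : (1 : ℝ) ≤ T.card := by exact_mod_cast hT0
  have hN : (Fintype.card (Option α) : ℝ) = (Fintype.card α : ℝ) + 1 := by
    rw [Fintype.card_option]; push_cast; ring
  refine ⟨h.Q_conv, h.Q_zero, (h.CT_comp T).image Sh_cont, ?_, by positivity, by positivity,
    ?_, h.both hb hb', ?_, ?_⟩
  · rintro _ ⟨x, hx, rfl⟩
    exact h.reg hx.1 T hT0 hT hx.2.1 hx.2.2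
  · rw [div_mul_div_comm, one_lt_div (by positivity)]
    nlinarith
  · rintro _ ⟨x, hx, rfl⟩ hm p₀ hp₀ htb
    obtain ⟨hxK, hx1, hx2⟩ := hx
    -- the block `some '' T`
    set E : Finset (Option α) := T.map Function.Embedding.some with hE
    have hEc : E.card = T.card := by rw [hE, Finset.card_map]
    have hEn : E.Nonempty := Finset.card_pos.1 (by rw [hEc]; exact hT0)
    have hval : ∀ i ∉ E, x i - (∑ j, x j) / Fintype.card (Option α) = (Sh x).1 := by
      intro i hi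
      rw [hN]
      cases i with
      | none => rfl
      | some a =>
        have ha : a ∉ T := by
          intro ha
          exact hi (by rw [hE]; simpa using ha)
        have h3 := hm _ (h.avg_i hxK (some a))
        refine le_antisymm ?_ h3
        show x (some a) - _ ≤ x none - _
        linarith [hx2 a ha]
    obtain ⟨x', hx', h4, h5⟩ := h.blk hxK E hEn hval
    have hEcn : none ∉ E := by rw [hE]; simp
    obtain ⟨p, hp, hp1, hp2⟩ := h.nb hb hb' hx' E hEn ⟨none, Finset.mem_compl.2 hEcn⟩ h5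
      (H := -(Sh x).1) (by intro i hi; rw [neg_neg]; exact h4 i hi) hp₀ htb
    refine ⟨p, hp, hp1, ?_⟩
    rw [neg_neg, hEc, hN] at hp2
    refine hp2.imp id fun h6 => ?_
    have e1 : -(((Fintype.card α : ℝ) + 1 - T.card) / T.card * (Sh x).1) =
        ((Fintype.card α : ℝ) - T.card + 1) / T.card * -(Sh x).1 := by ring
    rw [← e1]
    exact h6
  · rintro _ ⟨x, hx, rfl⟩ hm p₀ hp₀ htb
    obtain ⟨hxK, hx1, hx2⟩ := hx
    -- the block `some '' Tᶜ`
    set E : Finset (Option α) := (Tᶜ).map Function.Embedding.some with hE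
    have hEc : (E.card : ℝ) = (Fintype.card α : ℝ) - T.card := by
      rw [hE, Finset.card_map, Finset.card_compl, Nat.cast_sub hT.le]
    have hEn : E.Nonempty := Finset.card_pos.1 (by
      have : (0 : ℝ) < E.card := by rw [hEc]; linarith
      exact_mod_cast this)
    have hval : ∀ i ∉ E, x i - (∑ j, x j) / Fintype.card (Option α) = (Sh x).1 := by
      intro i hi
      rw [hN]
      cases i with
      | none => rfl
      | some a =>
        have ha : a ∈ T := by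
          by_contra ha
          exact hi (by rw [hE]; simpa using ha)
        have h3 := hm _ (h.avg_i hxK (some a))
        refine le_antisymm h3 ?_
        show x none - _ ≤ x (some a) - _
        linarith [hx1 a ha]
    obtain ⟨x', hx', h4, h5⟩ := h.blk hxK E hEn hval
    have hEcn : none ∉ E := by rw [hE]; simp
    obtain ⟨p, hp, hp1, hp2⟩ := h.nb hb hb' hx' Eᶜ ⟨none, Finset.mem_compl.2 hEcn⟩
      (by rw [compl_compl]; exact hEn)
      (B := (Sh x).1)
      (H := ((Fintype.card (Option α) : ℝ) - E.card) / E.card * (Sh x).1)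
      (by intro i hi; exact h4 i (Finset.mem_compl.1 hi))
      (by intro i hi; exact h5 i (by simpa using hi)) hp₀ htb
    refine ⟨p, hp, hp1, ?_⟩
    rw [hEc, hN] at hp2
    rcases hp2 with h6 | h6
    · right
      have e1 : (((Fintype.card α : ℝ) + 1 - ((Fintype.card α : ℝ) - T.card)) /
          ((Fintype.card α : ℝ) - T.card) * (Sh x).1) =
          (((T.card : ℝ) + 1) / (Fintype.card α - T.card) * (Sh x).1) := by ring
      rw [e1] at h6
      exact h6
    · left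
      exact h6

theorem Bd.T_dir (h : Bd K) (hb : Bad K) (hb' : Bad (-K)) {R : ℝ}
    (hR : ∀ y ∈ K, ∀ i, |y i| ≤ R) (T : Finset α) (hT0 : 0 < T.card)
    (hT : T.card < Fintype.card α) :
    ∃ w : Bool → (Option α → ℝ), ∀ x ∈ K, (∀ a ∈ T, x none ≤ x (some a)) →
      (∀ a ∉ T, x (some a) ≤ x none) → (∀ a ∈ T, ∀ b ∉ T, x (some b) < x (some a)) →
      ∃ b, Co K x (w b) := by
  have hpd := h.pd hb hb' T hT0 hT
  obtain ⟨d, hd⟩ := hpd.main
  obtain ⟨r, hr, hr1⟩ := unif h.Q_conv hpd.comp (fun q hq => hpd.sub hq) d hd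
  refine ⟨fun b => ((2 * R + 1) / r) • uT T + P α (d b), ?_⟩
  intro x hx h1 h2 h3
  obtain ⟨b, hb⟩ := hr1 (Sh x) ⟨x, ⟨hx, h1, h2⟩, rfl⟩
  refine ⟨b, h.blockT hx T hT0 hT h3 hR hr hb ?_⟩
  rw [mul_div_cancel₀ _ hr.ne']
  linarith

theorem Bd.vert (h : Bd K) : ∃ y : ℝ, 0 < y ∧ ((0 : ℝ), y) ∈ interior (Qs K) ∧
    ((0 : ℝ), -y) ∈ interior (Qs K) := by
  obtain ⟨ε, hε, h1⟩ := Co.of_interior h.Q_zero ((0 : ℝ), (1 : ℝ))
  obtain ⟨ε', hε', h2⟩ := Co.of_interior h.Q_zero ((0 : ℝ), (-1 : ℝ))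
  have e1 : (0 : ℝ × ℝ) + ε • ((0 : ℝ), (1 : ℝ)) = (0, ε) := by
    ext <;> simp
  have e2 : (0 : ℝ × ℝ) + ε' • ((0 : ℝ), (-1 : ℝ)) = (0, -ε') := by
    ext <;> simp
  rw [e1] at h1
  rw [e2] at h2
  have h3 : ∀ s : ℝ, -ε' < s → s < ε → ((0 : ℝ), s) ∈ interior (Qs K) := fun s hs1 hs2 =>
    int_level h.Q_conv h.Q_zero h.Q_z ⟨_, interior_subset h1, hs2⟩ ⟨_, interior_subset h2, hs1⟩
  have h4 : 0 < min ε ε' := lt_min hε hε'
  refine ⟨min ε ε' / 2, by linarith, h3 _ (by linarith) ?_, h3 _ ?_ (by linarith)⟩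
  · linarith [min_le_left ε ε']
  · linarith [min_le_right ε ε']

theorem Bd.level_down (h : Bd K) {y s : ℝ} (hy0 : 0 < y)
    (hy : ((0 : ℝ), -y) ∈ interior (Qs K)) (hs : 0 ≤ s) (hs1 : ((0 : ℝ), s) ∈ Qs K) :
    ((0 : ℝ), s + -y) ∈ interior (Qs K) := by
  have h1 := h.Q_conv.combo_self_interior_mem_interior hs1 hy (a := s / (s + y))
    (b := y / (s + y)) (by positivity) (by positivity) (by field_simp)
  have h2 : (s / (s + y)) • (((0 : ℝ), s) : ℝ × ℝ) + (y / (s + y)) • ((0 : ℝ), -y) =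
      (0, s + -y) := by
    ext
    · simp
    · simp only [Prod.snd_add, Prod.smul_snd, smul_eq_mul]
      have : s + y ≠ 0 := by positivity
      field_simp
      ring
  rwa [h2] at h1

theorem Bd.level_up (h : Bd K) {y s : ℝ} (hy0 : 0 < y)
    (hy : ((0 : ℝ), y) ∈ interior (Qs K)) (hs : s ≤ 0) (hs1 : ((0 : ℝ), s) ∈ Qs K) :
    ((0 : ℝ), s + y) ∈ interior (Qs K) := by
  have h5 : (0 : ℝ) < -s + y := by linarith
  have h1 := h.Q_conv.combo_self_interior_mem_interior hs1 hy (a := -s / (-s + y))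
    (b := y / (-s + y)) (div_nonneg (by linarith) h5.le) (by positivity) (by field_simp)
  have h2 : (-s / (-s + y)) • (((0 : ℝ), s) : ℝ × ℝ) + (y / (-s + y)) • ((0 : ℝ), y) =
      (0, s + y) := by
    ext
    · simp
    · simp only [Prod.snd_add, Prod.smul_snd, smul_eq_mul]
      field_simp
      ring
  rwa [h2] at h1

/-- A largest coordinate at `none`. -/
theorem Bd.caseTop (h : Bd K) {R : ℝ} (hR : ∀ y ∈ K, ∀ i, |y i| ≤ R) {y : ℝ} (hy0 : 0 < y)
    (hy1 : ((0 : ℝ), y) ∈ interior (Qs K)) (hy2 : ((0 : ℝ), -y) ∈ interior (Qs K))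
    {x : Option α → ℝ} (hx : x ∈ K) (hxt : ∀ a, x (some a) < x none) :
    ∃ b : Bool, Co K x (P α (-(Fintype.card α * (2 * R + 1)), if b then -y else y)) := by
  have hz : ((0 : ℝ), ∑ i, x i) ∈ Qs K := h.Q_z _ (h.avg hx)
  rcases le_total 0 (∑ i, x i) with h1 | h1
  · refine ⟨true, ?_⟩
    simp only [if_true]
    exact h.blockTop hx hxt hR (by linarith) (h.level_down hy0 hy2 h1 hz)
  · refine ⟨false, ?_⟩
    simp only [Bool.false_eq_true, if_false]
    exact h.blockTop hx hxt hR (by linarith) (h.level_up hy0 hy1 h1 hz)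

/-- **Case B**. -/
theorem Bd.caseB (h : Bd K) (hb : Bad K) (hb' : Bad (-K)) :
    ∃ w : Finset α × Bool → (Option α → ℝ), ∀ x ∈ K, ∃ j, Co K x (w j) := by
  classical
  obtain ⟨R, hR0, hR⟩ := h.bound
  obtain ⟨y, hy0, hy1, hy2⟩ := h.vert
  choose! wT hwT using h.T_dir hb hb' hR
  have hne : (Finset.univ : Finset α) ≠ ∅ := by
    rw [← Finset.nonempty_iff_ne_empty, ← Finset.card_pos, Finset.card_univ]
    exact h.card
  set w0 : Bool → (Option α → ℝ) :=
    fun b => P α (-(Fintype.card α * (2 * R + 1)), if b then -y else y) with hw0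
  set w : Finset α × Bool → (Option α → ℝ) := fun j =>
    if j.1 = ∅ then w0 j.2 else if j.1 = Finset.univ then -w0 j.2 else wT j.1 j.2 with hw
  have e1 : ∀ b, w (∅, b) = w0 b := fun b => by rw [hw]; simp
  have e2 : ∀ b, w (Finset.univ, b) = -w0 b := fun b => by
    rw [hw]; simp only [if_neg hne, if_true]
  refine ⟨w, fun x hx => ?_⟩
  rcases h.types (x := x) with h3 | h3 | h3 | ⟨T, hT0, hT, h4, h5, h6⟩
  · obtain ⟨b, hb⟩ := h.caseTop hR hy0 hy1 hy2 hx h3
    exact ⟨(∅, b), by rw [e1]; exact hb⟩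
  · have hRn : ∀ z ∈ -K, ∀ i, |z i| ≤ R := by
      intro z hz i
      have := hR (-z) hz i
      rwa [Pi.neg_apply, abs_neg] at this
    obtain ⟨b, hb⟩ := h.neg.caseTop hRn hy0
      (by
        obtain h7 := neg_int_Q (K := K) ((0 : ℝ), -y)
        rw [Prod.neg_mk, neg_zero, neg_neg] at h7
        exact h7.1 hy2)
      (by
        obtain h7 := neg_int_Q (K := K) ((0 : ℝ), y)
        rw [Prod.neg_mk, neg_zero] at h7
        exact h7.1 hy1) (x := -x) (by rwa [Set.mem_neg, neg_neg]) (fun a => by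
        simp only [Pi.neg_apply]
        linarith [h3 a])
    exact ⟨(Finset.univ, b), by rw [e2]; exact Co_neg hb⟩
  · have hz : ((0 : ℝ), ∑ i, x i) ∈ Qs K := h.Q_z _ (h.avg hx)
    have hnd := h.nondeg hb hb' hz
    rcases le_total 0 (∑ i, x i) with h2 | h2
    · refine ⟨(∅, true), ?_⟩
      rw [e1, hw0]
      simp only [if_true]
      rw [h3]
      exact h.constTop hz hnd (by positivity) (h.level_down hy0 hy2 h2 hz)
    · refine ⟨(∅, false), ?_⟩
      rw [e1, hw0]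
      simp only [Bool.false_eq_true, if_false]
      rw [h3]
      exact h.constTop hz hnd (by positivity) (h.level_up hy0 hy1 h2 hz)
  · obtain ⟨b, hb⟩ := hwT T hT0 hT x hx h4 h5 h6
    refine ⟨(T, b), ?_⟩
    have h7 : T ≠ ∅ := by rintro rfl; simp at hT0
    have h8 : T ≠ Finset.univ := by rintro rfl; simp at hT
    rw [hw]
    simp only [if_neg h7, if_neg h8]
    exact hb

/-- **Illumination.** -/
theorem Bd.illuminate (h : Bd K) :
    ∃ w : Finset (Option α) → (Option α → ℝ), ∀ x ∈ K, ∃ j, Co K x (w j) := by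
  classical
  by_cases hb : Bad K
  · by_cases hb' : Bad (-K)
    · obtain ⟨w, hw⟩ := h.caseB hb hb'
      have e : Finset (Option α) ≃ Finset α × Bool := Fintype.equivOfCardEq (by
        rw [Fintype.card_finset, Fintype.card_option, Fintype.card_prod, Fintype.card_finset,
          Fintype.card_bool, pow_succ])
      refine ⟨fun j => w (e j), fun x hx => ?_⟩
      obtain ⟨j, hj⟩ := hw x hx
      exact ⟨e.symm j, by simpa using hj⟩
    · unfold Bad at hb'
      push Not at hb'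
      obtain ⟨w, hw⟩ := h.neg.caseA hb'
      refine ⟨fun j => -w j, fun x hx => ?_⟩
      obtain ⟨j, hj⟩ := hw (-x) (by rwa [Set.mem_neg, neg_neg])
      exact ⟨j, Co_neg hj⟩
  · unfold Bad at hb
    push Not at hb
    exact h.caseA hb

/-- The covering. -/
theorem Bd.cover (h : Bd K) :
    ∃ v : Finset (Option α) → (Option α → ℝ), ∀ x ∈ K, ∃ j, x - v j ∈ interior K := by
  obtain ⟨w, hw⟩ := h.illuminate
  obtain ⟨r, hr, h1⟩ := unif h.conv h.comp subset_rfl w hw
  refine ⟨fun j => -(r • w j), fun x hx => ?_⟩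
  obtain ⟨j, hj⟩ := h1 x hx
  refine ⟨j, ?_⟩
  rw [sub_neg_eq_add]
  exact hj

end Pool.Agent.Zk76.Pm
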