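import Mathlib
import Pool.Agent.Zk76.Pm.Final

set_option autoImplicit false
set_option maxHeartbeats 1000000
set_option linter.unusedSectionVars false
set_option linter.unusedVariables false

open Set Topology Filter
open Pool.Agent.H843R3.Had2

namespace Pool.Agent.Zk76.Pm

variable {α : Type*} [Fintype α] [DecidableEq α]

/-- **The covering of a permutation invariant body.** -/
theorem cover_perm {K : Set (Option α → ℝ)} (hK : Convex ℝ K) (hKc : IsCompact K)
    (hKi : (interior K).Nonempty)
    (hp : ∀ (σ : Equiv.Perm (Option α)) (x : Option α → ℝ), x ∈ K → (fun i => x (σ i)) ∈ K)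
    (hα : 1 ≤ Fintype.card α) :
    ∃ v : Finset (Option α) → (Option α → ℝ), ∀ x ∈ K, ∃ j, x - v j ∈ interior K := by
  classical
  -- a constant vector in the interior
  have hpi : ∀ (σ : Equiv.Perm (Option α)) (x : Option α → ℝ), x ∈ interior K →
      (fun i => x (σ i)) ∈ interior K := by
    intro σ x hx
    set g : (Option α → ℝ) ≃ₜ (Option α → ℝ) :=
      (LinearEquiv.funCongrLeft ℝ ℝ σ).toContinuousLinearEquiv.toHomeomorph with hg
    have h1 : K ⊆ g ⁻¹' K := fun z hz => hp σ z hz
    have h2 : interior K ⊆ g ⁻¹' (interior K) := by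
      rw [g.preimage_interior]
      exact interior_mono h1
    exact h2 hx
  obtain ⟨y, hy⟩ := hKi
  set c : Option α → ℝ := fun i => if i ∈ (Finset.univ : Finset (Option α)) then
    (∑ j ∈ (Finset.univ : Finset (Option α)), y j) / (Finset.univ : Finset (Option α)).card
    else y i with hc
  have hcint : c ∈ interior K := block_avg hK.interior hpi hy Finset.univ Finset.univ_nonempty
  have hcc : ∀ i j, c i = c j := fun i j => by rw [hc]; simp
  have hpre : (fun x : Option α → ℝ => x + c) ⁻¹' (interior K) =
      interior ((fun x : Option α → ℝ => x + c) ⁻¹' K) :=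
    (Homeomorph.addRight c).preimage_interior K
  have hbd : Bd ((fun x : Option α → ℝ => x + c) ⁻¹' K) := by
    refine ⟨?_, ?_, ?_, ?_, hα⟩
    · exact hK.translate_preimage_left c
    · exact (Homeomorph.addRight c).isCompact_preimage.2 hKc
    · rw [← hpre]
      show 0 + c ∈ interior K
      rw [zero_add]
      exact hcint
    · intro σ x hx
      have h1 := hp σ (x + c) hx
      show (fun i => x (σ i)) + c ∈ K
      convert h1 using 1
      ext i
      simp only [Pi.add_apply]
      rw [hcc i (σ i)]
  obtain ⟨v, hv⟩ := hbd.cover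
  refine ⟨v, fun x hx => ?_⟩
  obtain ⟨j, hj⟩ := hv (x - c) (by show x - c + c ∈ K; rwa [sub_add_cancel])
  refine ⟨j, ?_⟩
  rw [← hpre] at hj
  have h1 : x - c - v j + c ∈ interior K := hj
  have h2 : x - c - v j + c = x - v j := by abel
  rwa [h2] at h1

end Pool.Agent.Zk76.Pm
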