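import Mathlib
import Pool.Agent.Zk76.Pm.Cov

set_option autoImplicit false
set_option maxHeartbeats 1000000
set_option linter.unusedSectionVars false
set_option linter.unusedVariables false

open Set Topology Filter
open Pool.Agent.H843R3.Had2

namespace Pool.Agent.Zk76.Pm

/-- The theorem in coordinates: permutations of a basis, centre `p`. -/
theorem cov_basis (n : ℕ) (hn : 2 ≤ n) (K : Set (EuclideanSpace ℝ (Fin n)))
    (hK : Convex ℝ K) (hKc : IsCompact K) (hKi : (interior K).Nonempty)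
    (p : EuclideanSpace ℝ (Fin n))
    (b : Module.Basis (Fin n) ℝ (EuclideanSpace ℝ (Fin n)))
    (hperm : ∀ σ : Equiv.Perm (Fin n), ∀ x ∈ K, p + ∑ i, b.repr (x - p) i • b (σ i) ∈ K) :
    ∃ T : Finset (EuclideanSpace ℝ (Fin n)), T.card ≤ 2 ^ n ∧
      K ⊆ ⋃ t ∈ T, (fun x => t + x) '' interior K := by
  classical
  obtain ⟨d, rfl⟩ : ∃ d, n = d + 1 := ⟨n - 1, by omega⟩
  set e : Option (Fin d) ≃ Fin (d + 1) := (finSuccEquiv d).symm with he
  set b' : Module.Basis (Option (Fin d)) ℝ (EuclideanSpace ℝ (Fin (d + 1))) :=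
    b.reindex e.symm with hb'
  set Φ : (Option (Fin d) → ℝ) ≃L[ℝ] EuclideanSpace ℝ (Fin (d + 1)) :=
    b'.equivFun.symm.toContinuousLinearEquiv with hΦ
  have hΦx : ∀ x, Φ x = ∑ i, x i • b' i := by
    intro x
    rw [hΦ]
    simp only [LinearEquiv.coe_toContinuousLinearEquiv']
    exact b'.equivFun_symm_apply x
  have hb'i : ∀ i, b' i = b (e i) := by
    intro i
    rw [hb', Module.Basis.reindex_apply, Equiv.symm_symm]
  set Ψ : (Option (Fin d) → ℝ) ≃ₜ EuclideanSpace ℝ (Fin (d + 1)) :=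
    Φ.toHomeomorph.trans (Homeomorph.addLeft p) with hΨ
  have hΨx : ∀ x, Ψ x = p + Φ x := fun x => rfl
  have hconv : Convex ℝ (Ψ ⁻¹' K) := by
    have h1 : Ψ ⁻¹' K = Φ.toLinearEquiv.toLinearMap ⁻¹' ((fun x => p + x) ⁻¹' K) := rfl
    rw [h1]
    exact (hK.translate_preimage_right p).linear_preimage _
  have hcomp : IsCompact (Ψ ⁻¹' K) := Ψ.isCompact_preimage.2 hKc
  have hint : (interior (Ψ ⁻¹' K)).Nonempty := by
    obtain ⟨y, hy⟩ := hKi
    refine ⟨Ψ.symm y, ?_⟩
    rw [← Ψ.preimage_interior]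
    show Ψ (Ψ.symm y) ∈ interior K
    rwa [Homeomorph.apply_symm_apply]
  have hp : ∀ (σ : Equiv.Perm (Option (Fin d))) (x : Option (Fin d) → ℝ), x ∈ Ψ ⁻¹' K →
      (fun i => x (σ i)) ∈ Ψ ⁻¹' K := by
    intro σ x hx
    show Ψ (fun i => x (σ i)) ∈ K
    have h1 := hperm (e.permCongr σ⁻¹) (Ψ x) hx
    rw [hΨx, add_sub_cancel_left] at h1
    have h2 : ∀ i, b.repr (Φ x) (e i) = x i := by
      intro i
      have h3 : b'.repr (Φ x) i = x i := by
        have h4 : b'.equivFun (Φ x) = x := b'.equivFun.apply_symm_apply x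
        have h5 := congrFun h4 i
        rwa [Module.Basis.equivFun_apply] at h5
      rw [← h3, hb', Module.Basis.repr_reindex_apply, Equiv.symm_symm]
    rw [← Equiv.sum_comp e] at h1
    rw [hΨx, hΦx, ← Equiv.sum_comp σ⁻¹]
    convert h1 using 3 with i
    rw [h2, hb'i]
    simp [Equiv.permCongr_apply]
  obtain ⟨v, hv⟩ := cover_perm hconv hcomp hint hp (by rw [Fintype.card_fin]; omega)
  refine ⟨Finset.univ.image (fun j => Φ (v j)), ?_, ?_⟩
  · refine Finset.card_image_le.trans ?_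
    rw [Finset.card_univ, Fintype.card_finset, Fintype.card_option, Fintype.card_fin]
  · intro x hx
    obtain ⟨j, hj⟩ := hv (Ψ.symm x) (by
      show Ψ (Ψ.symm x) ∈ K
      rwa [Homeomorph.apply_symm_apply])
    rw [← Ψ.preimage_interior] at hj
    have h4 : Ψ (Ψ.symm x - v j) ∈ interior K := hj
    have h5 : Ψ (Ψ.symm x - v j) = x - Φ (v j) := by
      rw [hΨx, map_sub, ← add_sub_assoc, ← hΨx, Homeomorph.apply_symm_apply]
    rw [h5] at h4
    simp only [Set.mem_iUnion]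
    refine ⟨Φ (v j), Finset.mem_image_of_mem _ (Finset.mem_univ _), x - Φ (v j), h4, ?_⟩
    simp

/-- invariance under the permutations of the coordinates -/
def PInv {n : ℕ} (L : Set (EuclideanSpace ℝ (Fin n))) : Prop :=
  ∀ (σ : Equiv.Perm (Fin n)) (x : EuclideanSpace ℝ (Fin n)), x ∈ L →
    (WithLp.toLp 2 (fun i => x (σ i)) : EuclideanSpace ℝ (Fin n)) ∈ L

theorem cov_pinv {n : ℕ} (hn : 2 ≤ n) {K : Set (EuclideanSpace ℝ (Fin n))}
    (hK : Convex ℝ K) (hKc : IsCompact K) (hKi : (interior K).Nonempty) (hp : PInv K) :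
    ∃ T : Finset (EuclideanSpace ℝ (Fin n)), T.card ≤ 2 ^ n ∧
      K ⊆ ⋃ t ∈ T, (fun x => t + x) '' interior K := by
  classical
  refine cov_basis n hn K hK hKc hKi 0 (EuclideanSpace.basisFun (Fin n) ℝ).toBasis ?_
  intro σ x hx
  have h1 := hp σ⁻¹ x hx
  convert h1 using 1
  rw [zero_add, sub_zero]
  ext j
  rw [← Equiv.sum_comp σ⁻¹]
  simp [Finset.sum_apply, Pi.single_apply]

end Pool.Agent.Zk76.Pm
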