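import Mathlib
import Pool.Agent.Zk76.Pm.Std

set_option autoImplicit false
set_option maxHeartbeats 1000000
set_option linter.unusedSectionVars false
set_option linter.unusedVariables false

open Set Topology Filter Metric
open Pool.Agent.H843R3.Had2

namespace Pool.Agent.Zk76.Pm

/-! Normalisation of a permutation invariant body. -/

variable {n : ℕ}

/-- the constant vector -/
noncomputable def one (n : ℕ) : EuclideanSpace ℝ (Fin n) := WithLp.toLp 2 fun _ => 1

theorem one_apply (i : Fin n) : one n i = 1 := rfl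

/-- the mean -/
noncomputable def mu (n : ℕ) : EuclideanSpace ℝ (Fin n) →ₗ[ℝ] ℝ where
  toFun x := (∑ i, x i) / n
  map_add' x y := by simp [Finset.sum_add_distrib, add_div]
  map_smul' c x := by simp [← Finset.mul_sum, mul_div_assoc]

theorem mu_apply (x : EuclideanSpace ℝ (Fin n)) : mu n x = (∑ i, x i) / n := rfl

theorem mu_one (hn : 0 < n) : mu n (one n) = 1 := by
  have : (n : ℝ) ≠ 0 := by positivity
  rw [mu_apply]
  simp only [one_apply, Finset.sum_const, Finset.card_univ, Fintype.card_fin, nsmul_eq_mul, mul_one]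
  field_simp

theorem mu_perm (σ : Equiv.Perm (Fin n)) (x : EuclideanSpace ℝ (Fin n)) :
    mu n (WithLp.toLp 2 (fun i => x (σ i))) = mu n x := by
  rw [mu_apply, mu_apply]
  show (∑ i, x (σ i)) / (n : ℝ) = _
  rw [Equiv.sum_comp σ (fun i => x i)]

/-- the scaling -/
noncomputable def Sc (n : ℕ) (a c : ℝ) : EuclideanSpace ℝ (Fin n) →ₗ[ℝ] EuclideanSpace ℝ (Fin n) :=
  a • LinearMap.id + (c - a) • (mu n).smulRight (one n)

theorem Sc_apply (a c : ℝ) (x : EuclideanSpace ℝ (Fin n)) (i : Fin n) :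
    Sc n a c x i = a * x i + (c - a) * mu n x := by
  simp [Sc, one_apply]

theorem mu_Sc (hn : 0 < n) (a c : ℝ) (x : EuclideanSpace ℝ (Fin n)) :
    mu n (Sc n a c x) = c * mu n x := by
  simp only [Sc, LinearMap.add_apply, LinearMap.smul_apply, LinearMap.id_apply,
    LinearMap.smulRight_apply, map_add, map_smul, smul_eq_mul, mu_one hn]
  ring

theorem Sc_Sc (hn : 0 < n) {a c : ℝ} (ha : a ≠ 0) (hc : c ≠ 0) (x : EuclideanSpace ℝ (Fin n)) :
    Sc n a⁻¹ c⁻¹ (Sc n a c x) = x := by
  ext i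
  rw [Sc_apply, Sc_apply, mu_Sc hn]
  field_simp
  ring

/-- the scaling and translation as an affine equivalence -/
noncomputable def Tr (hn : 0 < n) {a c : ℝ} (ha : a ≠ 0) (hc : c ≠ 0) (d : ℝ) :
    EuclideanSpace ℝ (Fin n) ≃ᵃ[ℝ] EuclideanSpace ℝ (Fin n) :=
  (LinearEquiv.ofLinearMap (Sc n a c) (Sc n a⁻¹ c⁻¹) (LinearMap.ext fun x => by
      have := Sc_Sc hn (inv_ne_zero ha) (inv_ne_zero hc) x
      rw [inv_inv, inv_inv] at this
      exact this) (LinearMap.ext fun x => Sc_Sc hn ha hc x)).toAffineEquiv.trans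
    (AffineEquiv.constVAdd ℝ _ (d • one n))

theorem Tr_apply (hn : 0 < n) {a c : ℝ} (ha : a ≠ 0) (hc : c ≠ 0) (d : ℝ)
    (x : EuclideanSpace ℝ (Fin n)) : Tr hn ha hc d x = d • one n + Sc n a c x := rfl

theorem Tr_coord (hn : 0 < n) {a c : ℝ} (ha : a ≠ 0) (hc : c ≠ 0) (d : ℝ)
    (x : EuclideanSpace ℝ (Fin n)) (i : Fin n) :
    Tr hn ha hc d x i = a * (x i - mu n x) + (c * mu n x + d) := by
  rw [Tr_apply]
  simp only [PiLp.add_apply, PiLp.smul_apply, smul_eq_mul, Sc_apply, one_apply]
  ring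

theorem mu_Tr (hn : 0 < n) {a c : ℝ} (ha : a ≠ 0) (hc : c ≠ 0) (d : ℝ)
    (x : EuclideanSpace ℝ (Fin n)) : mu n (Tr hn ha hc d x) = c * mu n x + d := by
  rw [Tr_apply, map_add, mu_Sc hn, map_smul, mu_one hn, smul_eq_mul]
  ring

theorem PInv.image_Tr {L : Set (EuclideanSpace ℝ (Fin n))} (hL : PInv L) (hn : 0 < n) {a c : ℝ}
    (ha : a ≠ 0) (hc : c ≠ 0) (d : ℝ) : PInv (Tr hn ha hc d '' L) := by
  rintro σ _ ⟨x, hx, rfl⟩
  refine ⟨_, hL σ x hx, ?_⟩
  ext i
  rw [Tr_coord, mu_perm]
  show a * (x (σ i) - mu n x) + (c * mu n x + d) = Tr hn ha hc d x (σ i)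
  rw [Tr_coord]

/-- averaging in coordinates -/
theorem PInv.avg {L : Set (EuclideanSpace ℝ (Fin n))} (hL : PInv L) (hc : Convex ℝ L)
    {x : EuclideanSpace ℝ (Fin n)} (hx : x ∈ L) (C : Finset (Fin n)) (hC : C.Nonempty) :
    (WithLp.toLp 2 (fun i => if i ∈ C then (∑ j ∈ C, x j) / C.card else x i) :
      EuclideanSpace ℝ (Fin n)) ∈ L := by
  classical
  set g : (Fin n → ℝ) ≃ₗ[ℝ] EuclideanSpace ℝ (Fin n) := (WithLp.linearEquiv 2 ℝ (Fin n → ℝ)).symm
    with hg
  have h1 : Convex ℝ (g ⁻¹' L) := hc.linear_preimage g.toLinearMap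
  have h2 := block_avg (K := g ⁻¹' L) h1 (fun σ z hz => hL σ (g z) hz) (x := fun i => x i) hx C hC
  exact h2

/-- The inner ball. -/
theorem inner_ball (hn : 2 ≤ n) {L : Set (EuclideanSpace ℝ (Fin n))} (hL : PInv L)
    (hc : Convex ℝ L) (h1 : one n ∈ L) (h2 : -one n ∈ L) {w : EuclideanSpace ℝ (Fin n)}
    (hw : w ∈ L) (i₀ : Fin n) (hw1 : w i₀ - mu n w = 1) (hw2 : |mu n w| ≤ 1) :
    closedBall (0 : EuclideanSpace ℝ (Fin n)) (1 / (4 * n)) ⊆ L := by
  classical
  have hn1 : (1 : ℝ) < n := by exact_mod_cast hn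
  have hn0 : (0 : ℝ) < n := by linarith
  have hn1' : (n : ℝ) - 1 ≠ 0 := by linarith
  set s : ℝ := mu n w with hs
  -- the vectors `E j`
  set E : Fin n → EuclideanSpace ℝ (Fin n) :=
    fun j => WithLp.toLp 2 fun i => if i = j then s + 1 else s - 1 / ((n : ℝ) - 1) with hE
  have hE0 : E i₀ ∈ L := by
    have hcard : ((Finset.univ.erase i₀ : Finset (Fin n)).card : ℝ) = n - 1 := by
      rw [Finset.card_erase_of_mem (Finset.mem_univ _), Finset.card_univ, Fintype.card_fin,
        Nat.cast_sub (by omega)]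
      simp
    have hne : (Finset.univ.erase i₀ : Finset (Fin n)).Nonempty := by
      rw [← Finset.card_pos]
      have : (0 : ℝ) < ((Finset.univ.erase i₀ : Finset (Fin n)).card : ℝ) := by
        rw [hcard]; linarith
      exact_mod_cast this
    have h3 := hL.avg hc hw (Finset.univ.erase i₀) hne
    convert h3 using 1
    ext i
    simp only [hE]
    by_cases hi : i = i₀
    · subst hi
      rw [if_pos rfl, if_neg (Finset.notMem_erase _ _)]
      linarith
    · rw [if_neg hi, if_pos (Finset.mem_erase.2 ⟨hi, Finset.mem_univ _⟩), hcard]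
      have h4 : ∑ j ∈ Finset.univ.erase i₀, w j = n * s - (s + 1) := by
        have h5 := Finset.add_sum_erase Finset.univ (fun j => w j) (Finset.mem_univ i₀)
        have h6 : ∑ j, w j = n * s := by
          rw [hs, mu_apply]
          field_simp
        simp only at h5
        linarith
      rw [h4]
      field_simp
      ring
  have hEj : ∀ j, E j ∈ L := by
    intro j
    have h3 := hL (Equiv.swap i₀ j) (E i₀) hE0
    convert h3 using 1
    ext i
    simp only [hE]
    by_cases hi : i = j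
    · subst hi
      rw [if_pos rfl, Equiv.swap_apply_right, if_pos rfl]
    · rw [if_neg hi]
      have h4 : Equiv.swap i₀ j i ≠ i₀ := by
        intro h5
        apply hi
        have := congrArg (Equiv.swap i₀ j) h5
        simpa using this
      rw [if_neg h4]
  intro y hy
  rw [mem_closedBall_zero_iff] at hy
  set r : ℝ := 1 / (4 * n) with hr
  have hr0 : 0 < r := by positivity
  have hyi : ∀ i, |y i| ≤ r := fun i => by
    have := (PiLp.norm_apply_le y i).trans hy
    rwa [Real.norm_eq_abs] at this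
  set c : Fin n → ℝ := fun j => ((n : ℝ) - 1) / n * (y j + r) with hcdef
  have hc0 : ∀ j, 0 ≤ c j := fun j => by
    have := (abs_le.1 (hyi j)).1
    exact mul_nonneg (div_nonneg (by linarith) hn0.le) (by linarith)
  have hsumy : ∑ j, y j = n * mu n y := by
    rw [mu_apply]; field_simp
  have hmu : |mu n y| ≤ r := by
    rw [mu_apply, abs_div, abs_of_pos hn0, div_le_iff₀ hn0]
    calc |∑ j, y j| ≤ ∑ j, |y j| := Finset.abs_sum_le_sum_abs _ _
      _ ≤ ∑ _j : Fin n, r := Finset.sum_le_sum fun j _ => hyi j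
      _ = r * n := by rw [Finset.sum_const, Finset.card_univ, Fintype.card_fin, nsmul_eq_mul]; ring
  have hcs : ∑ j, c j = ((n : ℝ) - 1) * (mu n y + r) := by
    rw [hcdef, ← Finset.mul_sum, Finset.sum_add_distrib, hsumy, Finset.sum_const,
      Finset.card_univ, Fintype.card_fin, nsmul_eq_mul]
    field_simp
  set C : ℝ := ∑ j, c j with hC
  have hC0 : 0 ≤ C := Finset.sum_nonneg fun j _ => hc0 j
  have hC1 : C ≤ ((n : ℝ) - 1) * (2 * r) := by
    rw [hcs]
    exact mul_le_mul_of_nonneg_left (by linarith [(abs_le.1 hmu).2]) (by linarith)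
  set u : ℝ := mu n y - s * C with hu
  have hu1 : |u| ≤ r + C := by
    calc |u| ≤ |mu n y| + |s * C| := abs_sub _ _
      _ ≤ r + C := by
        rw [abs_mul, abs_of_nonneg hC0]
        have := mul_le_mul_of_nonneg_right hw2 hC0
        linarith
  have htot : C + |u| ≤ 1 := by
    have h3 : r * (4 * n) = 1 := by rw [hr]; field_simp
    nlinarith
  have key := hc.sum_mem (t := (Finset.univ : Finset (Fin n ⊕ Bool)))
    (w := Sum.elim c (fun b => if b then (1 - C + u) / 2 else (1 - C - u) / 2))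
    (z := Sum.elim E (fun b => if b then one n else -one n)) (by
      rintro (j | b) _
      · exact hc0 j
      · have h5 := abs_le.1 (le_refl |u|)
        cases b
        · show (0 : ℝ) ≤ (1 - C - u) / 2
          linarith
        · show (0 : ℝ) ≤ (1 - C + u) / 2
          linarith) (by
      rw [Fintype.sum_sum_type]
      simp only [Sum.elim_inl, Sum.elim_inr, Fintype.sum_bool, if_true, Bool.false_eq_true,
        if_false]
      rw [← hC]
      ring) (by
      rintro (j | b) _
      · exact hEj j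
      · cases b
        · exact h2
        · exact h1)
  convert key using 1
  rw [Fintype.sum_sum_type]
  simp only [Sum.elim_inl, Sum.elim_inr, Fintype.sum_bool, if_true, Bool.false_eq_true, if_false]
  ext i
  simp only [PiLp.add_apply, PiLp.smul_apply, PiLp.neg_apply, smul_eq_mul, one_apply]
  have h7 : (∑ j, c j • E j) i = ∑ j, c j * (if i = j then s + 1 else s - 1 / ((n : ℝ) - 1)) := by
    rw [WithLp.ofLp_sum, Finset.sum_apply]
    rfl
  rw [h7]
  have h8 : ∑ j, c j * (if i = j then s + 1 else s - 1 / ((n : ℝ) - 1)) =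
      C * (s - 1 / ((n : ℝ) - 1)) + c i * (1 + 1 / ((n : ℝ) - 1)) := by
    have h9 : ∀ j, c j * (if i = j then s + 1 else s - 1 / ((n : ℝ) - 1)) =
        c j * (s - 1 / ((n : ℝ) - 1)) + (if i = j then c j * (1 + 1 / ((n : ℝ) - 1)) else 0) := by
      intro j
      split_ifs with h
      · ring
      · ring
    rw [Finset.sum_congr rfl fun j _ => h9 j, Finset.sum_add_distrib, ← Finset.sum_mul, ← hC]
    simp
  rw [h8, hu, hcs, hcdef]
  field_simp
  ring

end Pool.Agent.Zk76.Pm
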