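import Mathlib
import Pool.Agent.Zk76.Wt.Bound
import Pool.Agent.Zk76.Pm.Pos

set_option autoImplicit false
set_option maxHeartbeats 1000000
set_option linter.unusedSectionVars false
set_option linter.unusedVariables false
set_option linter.deprecated false

open Set Topology Filter Metric
open Pool.Agent.H843R3.Had2
open Pool.Agent.Zk76.Wt (Cov)

namespace Pool.Agent.Zk76.Pm

variable {n : ℕ}

theorem PInv.of_int {L : Set (EuclideanSpace ℝ (Fin n))} (hL : PInv L) :
    PInv (interior L) := by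
  intro σ x hx
  set g : EuclideanSpace ℝ (Fin n) ≃ₜ EuclideanSpace ℝ (Fin n) :=
    ((WithLp.linearEquiv 2 ℝ (Fin n → ℝ)).trans ((LinearEquiv.funCongrLeft ℝ ℝ σ).trans
      (WithLp.linearEquiv 2 ℝ (Fin n → ℝ)).symm)).toContinuousLinearEquiv.toHomeomorph with hg
  have h1 : L ⊆ g ⁻¹' L := fun z hz => hL σ z hz
  have h2 : interior L ⊆ g ⁻¹' (interior L) := by
    rw [g.preimage_interior]
    exact interior_mono h1
  exact h2 hx

/-- A body in normal position. -/
structure Npos (L : Set (EuclideanSpace ℝ (Fin n))) : Prop where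
  conv : Convex ℝ L
  comp : IsCompact L
  pinv : PInv L
  inn : closedBall (0 : EuclideanSpace ℝ (Fin n)) (1 / (4 * n)) ⊆ L
  out : L ⊆ closedBall (0 : EuclideanSpace ℝ (Fin n)) ((n : ℝ) * n)

theorem norm_le_sum (x : EuclideanSpace ℝ (Fin n)) : ‖x‖ ≤ ∑ i, |x i| := by
  rw [EuclideanSpace.norm_eq]
  apply Real.sqrt_le_iff.2
  refine ⟨Finset.sum_nonneg fun i _ => abs_nonneg _, ?_⟩
  have h1 : ∀ i, ‖x i‖ ^ 2 = |x i| ^ 2 := fun i => by rw [Real.norm_eq_abs]
  rw [Finset.sum_congr rfl fun i _ => h1 i]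
  exact Finset.sum_sq_le_sq_sum_of_nonneg fun i _ => abs_nonneg _

/-- Each permutation invariant body can be put in normal position. -/
theorem exists_npos (hn : 2 ≤ n) {L : Set (EuclideanSpace ℝ (Fin n))} (hc : Convex ℝ L)
    (hcomp : IsCompact L) (hi : (interior L).Nonempty) (hL : PInv L) :
    ∃ T : EuclideanSpace ℝ (Fin n) ≃ᵃ[ℝ] EuclideanSpace ℝ (Fin n), Npos (T '' L) := by
  classical
  have hn1 : (1 : ℝ) < n := by exact_mod_cast hn
  have hn0 : (0 : ℝ) < n := by linarith
  have hnn : 0 < n := by omega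
  let i₀ : Fin n := ⟨0, hnn⟩
  have hne : L.Nonempty := hi.mono interior_subset
  have hmuc : Continuous (fun x : EuclideanSpace ℝ (Fin n) => mu n x) :=
    LinearMap.continuous_of_finiteDimensional _
  have hcoc : Continuous (fun x : EuclideanSpace ℝ (Fin n) => x i₀) := by fun_prop
  -- a constant interior point
  obtain ⟨y, hy⟩ := hi
  obtain ⟨t, ht⟩ : ∃ t : ℝ, t • one n ∈ interior L := by
    have h1 := hL.of_int.avg hc.interior hy Finset.univ
      (by rw [← Finset.card_pos, Finset.card_univ, Fintype.card_fin]; omega)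
    refine ⟨(∑ j, y j) / (Finset.univ : Finset (Fin n)).card, ?_⟩
    convert h1 using 1
    ext i
    simp [one_apply]
  -- the extreme points
  obtain ⟨a₁, ha₁, hmax⟩ := hcomp.exists_isMaxOn hne hmuc.continuousOn
  obtain ⟨a₂, ha₂, hmin⟩ := hcomp.exists_isMinOn hne hmuc.continuousOn
  obtain ⟨w, hw, hwmax⟩ := hcomp.exists_isMaxOn hne (hcoc.sub hmuc).continuousOn
  have hmax' : ∀ x ∈ L, mu n x ≤ mu n a₁ := fun x hx => hmax hx
  have hmin' : ∀ x ∈ L, mu n a₂ ≤ mu n x := fun x hx => hmin hx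
  have hwmax' : ∀ x ∈ L, x i₀ - mu n x ≤ w i₀ - mu n w := fun x hx => hwmax hx
  -- positivity
  have hlt : mu n a₂ < mu n a₁ := by
    obtain ⟨ε, hε, h1⟩ := Co.of_interior ht (one n)
    have h2 := hmax' _ (interior_subset h1)
    have h3 := hmin' _ (interior_subset ht)
    rw [map_add, map_smul, map_smul, mu_one hnn, smul_eq_mul, smul_eq_mul] at h2
    rw [map_smul, mu_one hnn, smul_eq_mul] at h3
    linarith
  have hA : 0 < w i₀ - mu n w := by
    obtain ⟨ε, hε, h1⟩ := Co.of_interior ht (EuclideanSpace.single i₀ (1 : ℝ))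
    have h2 := hwmax' _ (interior_subset h1)
    have h3 : mu n (EuclideanSpace.single i₀ (1 : ℝ)) = 1 / n := by
      rw [mu_apply]
      congr 1
      simp
    rw [map_add, map_smul, map_smul, mu_one hnn, h3] at h2
    simp only [PiLp.add_apply, PiLp.smul_apply, smul_eq_mul, one_apply,
      EuclideanSpace.single_apply, if_true, mul_one] at h2
    have h4 : 0 < ε * (1 - 1 / n) := by
      have : (1 : ℝ) / n < 1 := by rw [div_lt_one hn0]; exact hn1
      exact mul_pos hε (by linarith)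
    linarith
  set A : ℝ := w i₀ - mu n w with hAd
  set B : ℝ := mu n a₁ - mu n a₂ with hBd
  have hB : 0 < B := by rw [hBd]; linarith
  have ha : (1 / A) ≠ 0 := by positivity
  have hc' : (2 / B) ≠ 0 := by positivity
  set d : ℝ := -((mu n a₁ + mu n a₂) / B) with hd
  set T := Tr hnn ha hc' d with hT
  have hTc : Continuous T := (T.toHomeomorphOfFiniteDimensional).continuous
  have hPT : PInv (T '' L) := hL.image_Tr hnn ha hc' d
  have hcT : Convex ℝ (T '' L) := hc.affine_image T.toAffineMap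
  have hmu₁ : mu n (T a₁) = 1 := by
    rw [hT, mu_Tr hnn, hd, hBd]
    have : mu n a₁ - mu n a₂ ≠ 0 := by rw [← hBd]; exact hB.ne'
    field_simp
    ring
  have hmu₂ : mu n (T a₂) = -1 := by
    rw [hT, mu_Tr hnn, hd, hBd]
    have : mu n a₁ - mu n a₂ ≠ 0 := by rw [← hBd]; exact hB.ne'
    field_simp
    ring
  have hmub : ∀ x ∈ L, |mu n (T x)| ≤ 1 := by
    intro x hx
    have e1 : mu n (T x) = (2 * mu n x - (mu n a₁ + mu n a₂)) / B := by
      rw [hT, mu_Tr hnn, hd]
      ring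
    rw [e1, abs_div, abs_of_pos hB, div_le_one hB, hBd]
    have h1 := hmax' x hx
    have h2 := hmin' x hx
    rw [abs_le]
    constructor <;> linarith
  -- constants
  have hconst : ∀ x ∈ L, (mu n (T x)) • one n ∈ T '' L := by
    intro x hx
    have h1 := hPT.avg hcT (mem_image_of_mem T hx) Finset.univ
      (by rw [← Finset.card_pos, Finset.card_univ, Fintype.card_fin]; omega)
    convert h1 using 1
    ext i
    simp [one_apply, mu_apply]
  have h1 : one n ∈ T '' L := by
    have := hconst a₁ ha₁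
    rwa [hmu₁, one_smul] at this
  have h2 : -one n ∈ T '' L := by
    have := hconst a₂ ha₂
    rwa [hmu₂, neg_smul, one_smul] at this
  have hdev : ∀ (x : EuclideanSpace ℝ (Fin n)) (i : Fin n),
      T x i - mu n (T x) = (x i - mu n x) / A := by
    intro x i
    rw [hT, mu_Tr hnn, Tr_coord]
    ring
  refine ⟨T, hcT, hcomp.image hTc, hPT, ?_, ?_⟩
  · refine inner_ball hn hPT hcT h1 h2 (mem_image_of_mem T hw) i₀ ?_ (hmub w hw)
    rw [hdev, ← hAd, div_self hA.ne']
  · rintro _ ⟨x, hx, rfl⟩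
    rw [mem_closedBall_zero_iff]
    have hup : ∀ i, x i - mu n x ≤ A := by
      intro i
      have h3 := hwmax' _ (hL (Equiv.swap i₀ i) x hx)
      rw [mu_perm] at h3
      have h4 : (WithLp.toLp 2 (fun j => x (Equiv.swap i₀ i j)) : EuclideanSpace ℝ (Fin n)) i₀ =
          x i := by
        show x (Equiv.swap i₀ i i₀) = x i
        rw [Equiv.swap_apply_left]
      rw [h4] at h3
      exact h3
    have hup' : ∀ i, T x i - mu n (T x) ≤ 1 := by
      intro i
      rw [hdev, div_le_one hA]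
      exact hup i
    have hsum0 : ∑ i, (T x i - mu n (T x)) = 0 := by
      rw [Finset.sum_sub_distrib, Finset.sum_const, Finset.card_univ, Fintype.card_fin,
        nsmul_eq_mul, mu_apply]
      field_simp
      ring
    have hlow : ∀ i, -((n : ℝ) - 1) ≤ T x i - mu n (T x) := by
      intro i
      have h3 := Finset.add_sum_erase Finset.univ (fun j => T x j - mu n (T x))
        (Finset.mem_univ i)
      rw [hsum0] at h3
      have h4 : ∑ j ∈ Finset.univ.erase i, (T x j - mu n (T x)) ≤ (n : ℝ) - 1 := by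
        have h5 := Finset.sum_le_card_nsmul (Finset.univ.erase i)
          (fun j => T x j - mu n (T x)) 1 (fun j _ => hup' j)
        have hcard : ((Finset.univ.erase i : Finset (Fin n)).card : ℝ) = n - 1 := by
          rw [Finset.card_erase_of_mem (Finset.mem_univ _), Finset.card_univ, Fintype.card_fin,
            Nat.cast_sub (by omega)]
          simp
        rw [nsmul_eq_mul, hcard, mul_one] at h5
        exact h5
      linarith
    have hm := abs_le.1 (hmub x hx)
    have habs : ∀ i, |T x i| ≤ n := by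
      intro i
      rw [abs_le]
      constructor
      · linarith [hlow i, hm.1]
      · have : (2 : ℝ) ≤ n := by exact_mod_cast hn
        linarith [hup' i, hm.2]
    refine (norm_le_sum _).trans ?_
    calc ∑ i, |T x i| ≤ ∑ _i : Fin n, (n : ℝ) := Finset.sum_le_sum fun i _ => habs i
      _ = n * n := by
        rw [Finset.sum_const, Finset.card_univ, Fintype.card_fin, nsmul_eq_mul]

/-- The uniform theorem in normal position. -/
theorem unif_npos (hn : 2 ≤ n) : ∃ ε : ℝ, 0 < ε ∧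
    ∀ L : Set (EuclideanSpace ℝ (Fin n)), Npos L →
      ∀ K : Set (EuclideanSpace ℝ (Fin n)), Convex ℝ K → IsCompact K → L ⊆ K →
        (∃ v : EuclideanSpace ℝ (Fin n), ∀ x ∈ K, ∃ y ∈ L, x = v + (1 + ε) • y) →
        Cov (2 ^ n) K := by
  by_contra hcon
  push Not at hcon
  have hcon' := fun k : ℕ => hcon (1 / ((k : ℝ) + 1)) (by positivity)
  choose L hL K hK hKc hLK hex hcov using hcon'
  choose v hv using hex
  have hnR : (0 : ℝ) < n := by
    have : 0 < n := by omega
    exact_mod_cast this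
  have hr : 0 < 1 / (4 * (n : ℝ)) := by positivity
  have hne : ∀ k, (L k).Nonempty := fun k => ⟨_, (hL k).inn (mem_closedBall_self hr.le)⟩
  have hKne : ∀ k, (K k).Nonempty := fun k => (hne k).mono (hLK k)
  obtain ⟨M, hM, hMne, hMc, hMR, φ, hφ, hlim⟩ :=
    Pool.Agent.H318R3.St.blaschke L ((n : ℝ) * n) (fun k => (hL k).comp) hne
      (fun k => (hL k).conv) (fun k => (hL k).out)
  have hMin : closedBall (0 : EuclideanSpace ℝ (Fin n)) (1 / (4 * n)) ⊆ M := by
    intro x hx
    exact Pool.Agent.Zk76.Wt.lim_mem (K := fun k => L (φ k)) (fun _ => (hL _).comp)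
      (fun _ => hne _) hM hMne hlim (u := fun _ => x) (fun k => (hL _).inn hx) tendsto_const_nhds
  have hMint : (interior M).Nonempty := by
    refine ⟨0, mem_interior.2 ⟨ball 0 (1 / (4 * (n : ℝ))),
      ball_subset_closedBall.trans hMin, isOpen_ball, mem_ball_self hr⟩⟩
  have hMp : PInv M := by
    intro σ x hx
    obtain ⟨u, hu, hux⟩ := Pool.Agent.Zk76.Wt.seq_lim (K := fun k => L (φ k))
      (fun _ => (hL _).comp) (fun _ => hne _) hM hMne hlim hx
    refine Pool.Agent.Zk76.Wt.lim_mem (K := fun k => L (φ k)) (fun _ => (hL _).comp)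
      (fun _ => hne _) hM hMne hlim
      (u := fun k => (WithLp.toLp 2 (fun i => u k (σ i)) : EuclideanSpace ℝ (Fin n)))
      (fun k => (hL _).pinv σ _ (hu k)) ?_
    have hcont : Continuous (fun z : EuclideanSpace ℝ (Fin n) =>
        (WithLp.toLp 2 (fun i => z (σ i)) : EuclideanSpace ℝ (Fin n))) := by
      fun_prop
    exact (hcont.tendsto x).comp hux
  obtain ⟨δ, hδ, hnear⟩ := Pool.Agent.Zk76.Wt.cov_near hM hMne
    (cov_pinv hn hMc hM hMint hMp)
  -- the distance of `K k` and `L k`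
  set R : ℝ := (n : ℝ) * n with hR
  have hR0 : 0 ≤ R := by positivity
  have hvb : ∀ k, ‖v k‖ ≤ 1 / ((k : ℝ) + 1) * R := by
    intro k
    have hε : (0 : ℝ) < 1 / ((k : ℝ) + 1) := by positivity
    set ε : ℝ := 1 / ((k : ℝ) + 1) with hεd
    obtain ⟨x₀, hx₀, hmin⟩ := (hL k).comp.exists_isMinOn (hne k)
      (f := fun x => inner ℝ (v k) x) (by fun_prop)
    obtain ⟨y, hy, hxy⟩ := hv k x₀ (hLK k hx₀)
    have h1 : inner ℝ (v k) x₀ ≤ inner ℝ (v k) y := hmin hy
    have h2 : inner ℝ (v k) x₀ = ‖v k‖ ^ 2 + (1 + ε) * inner ℝ (v k) y := by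
      conv_lhs => rw [hxy]
      rw [inner_add_right, inner_smul_right, real_inner_self_eq_norm_sq]
    have h3 : |inner ℝ (v k) x₀| ≤ ‖v k‖ * ‖x₀‖ := abs_real_inner_le_norm _ _
    have h4 : ‖x₀‖ ≤ R := mem_closedBall_zero_iff.1 ((hL k).out hx₀)
    have h5 : ‖v k‖ * ‖x₀‖ ≤ ‖v k‖ * R := mul_le_mul_of_nonneg_left h4 (norm_nonneg _)
    have h6 := (abs_le.1 h3).1
    have h7 : ‖v k‖ ^ 2 ≤ ε * (‖v k‖ * R) := by nlinarith
    rcases (norm_nonneg (v k)).eq_or_lt with h8 | h8
    · rw [← h8]; positivity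
    · nlinarith
  have hdist : ∀ k, hausdorffDist (K k) (L k) ≤ 2 * R * (1 / ((k : ℝ) + 1)) := by
    intro k
    refine hausdorffDist_le_of_mem_dist (by positivity) ?_ ?_
    · intro x hx
      obtain ⟨y, hy, hxy⟩ := hv k x hx
      refine ⟨y, hy, ?_⟩
      have h4 : ‖y‖ ≤ R := mem_closedBall_zero_iff.1 ((hL k).out hy)
      have h5 : x - y = v k + (1 / ((k : ℝ) + 1)) • y := by
        rw [hxy]; module
      rw [dist_eq_norm, h5]
      calc ‖v k + (1 / ((k : ℝ) + 1)) • y‖ ≤ ‖v k‖ + ‖(1 / ((k : ℝ) + 1)) • y‖ := norm_add_le _ _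
        _ ≤ 1 / ((k : ℝ) + 1) * R + 1 / ((k : ℝ) + 1) * R := by
          rw [norm_smul, Real.norm_of_nonneg (by positivity)]
          exact add_le_add (hvb k) (mul_le_mul_of_nonneg_left h4 (by positivity))
        _ = 2 * R * (1 / ((k : ℝ) + 1)) := by ring
    · intro x hx
      exact ⟨x, hLK k hx, by rw [dist_self]; positivity⟩
  have hlimK : Tendsto (fun k => hausdorffDist (K (φ k)) M) atTop (𝓝 0) := by
    have h1 : Tendsto (fun k : ℕ => 2 * R * (1 / (((φ k : ℕ) : ℝ) + 1)) +
        hausdorffDist (L (φ k)) M) atTop (𝓝 0) := by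
      have h2 : Tendsto (fun k : ℕ => 2 * R * (1 / (((φ k : ℕ) : ℝ) + 1))) atTop (𝓝 0) := by
        have h3 := (tendsto_one_div_add_atTop_nhds_zero_nat (𝕜 := ℝ)).const_mul (2 * R)
        rw [mul_zero] at h3
        exact h3.comp hφ.tendsto_atTop
      simpa using h2.add hlim
    refine squeeze_zero (fun _ => hausdorffDist_nonneg) (fun k => ?_) h1
    have h2 := hausdorffDist_triangle (s := K (φ k)) (t := L (φ k)) (u := M)
      (Pool.Agent.H318R3.St.haus_fin (hKne _) (hne _) (hKc _) (hL _).comp)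
    linarith [hdist (φ k)]
  obtain ⟨k, hk⟩ := (hlimK.eventually (gt_mem_nhds hδ)).exists
  exact hcov (φ k) (hnear (K (φ k)) (hKc _) (hKne _) (hK _) hk)

/-- **The uniform theorem.** -/
theorem unif_basis (n : ℕ) (hn : 2 ≤ n) : ∃ ε : ℝ, 0 < ε ∧
    ∀ (p : EuclideanSpace ℝ (Fin n)) (b : Module.Basis (Fin n) ℝ (EuclideanSpace ℝ (Fin n)))
      (L : Set (EuclideanSpace ℝ (Fin n))), Convex ℝ L → IsCompact L → (interior L).Nonempty →
      (∀ σ : Equiv.Perm (Fin n), ∀ x ∈ L, p + ∑ i, b.repr (x - p) i • b (σ i) ∈ L) →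
      ∀ K : Set (EuclideanSpace ℝ (Fin n)), Convex ℝ K → IsCompact K → L ⊆ K →
        (∃ v : EuclideanSpace ℝ (Fin n), ∀ x ∈ K, ∃ y ∈ L, x = v + (1 + ε) • y) →
        Cov (2 ^ n) K := by
  classical
  obtain ⟨ε, hε, h⟩ := unif_npos hn
  refine ⟨ε, hε, fun p b L hL hLc hLi hperm K hK hKc hLK hv => ?_⟩
  -- coordinates
  set A : EuclideanSpace ℝ (Fin n) ≃ₗ[ℝ] EuclideanSpace ℝ (Fin n) :=
    b.equivFun.trans (WithLp.linearEquiv 2 ℝ (Fin n → ℝ)).symm with hA
  have hAi : ∀ x i, A x i = b.repr x i := fun x i => rfl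
  set S : EuclideanSpace ℝ (Fin n) ≃ᵃ[ℝ] EuclideanSpace ℝ (Fin n) :=
    (AffineEquiv.constVAdd ℝ _ (-p)).trans A.toAffineEquiv with hS
  have hSx : ∀ x, S x = A (x - p) := by
    intro x
    show A (-p + x) = A (x - p)
    congr 1
    abel
  have hPS : PInv (S '' L) := by
    rintro σ _ ⟨x, hx, rfl⟩
    refine ⟨_, hperm σ⁻¹ x hx, ?_⟩
    rw [hSx, add_sub_cancel_left]
    ext j
    rw [hAi, map_sum]
    show (∑ i, b.repr (b.repr (x - p) i • b (σ⁻¹ i)) : Fin n →₀ ℝ) j = S x (σ j)
    rw [hSx, hAi]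
    simp only [map_smul, Module.Basis.repr_self, Finsupp.smul_single, smul_eq_mul, mul_one]
    rw [Finsupp.finsetSum_apply]
    rw [← Equiv.sum_comp σ]
    simp [Finsupp.single_apply]
  have hSi : (interior (S '' L)).Nonempty := by
    rw [← Pool.Agent.Zk76.Wt.image_interior_aff]
    exact hLi.image _
  have hSc : Continuous S := (S.toHomeomorphOfFiniteDimensional).continuous
  have hScv : Convex ℝ (S '' L) := hL.affine_image S.toAffineMap
  obtain ⟨T, hT⟩ := exists_npos hn hScv (hLc.image hSc) hSi hPS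
  set U := S.trans T with hU
  have hUc : Continuous U := (U.toHomeomorphOfFiniteDimensional).continuous
  have himg : T '' (S '' L) = U '' L := by
    rw [← image_comp]; rfl
  rw [himg] at hT
  refine Pool.Agent.Zk76.Wt.cov_transfer U (h (U '' L) hT (U '' K)
    (hK.affine_image U.toAffineMap) (hKc.image hUc) (image_mono hLK) ?_)
  obtain ⟨v, hv⟩ := hv
  refine ⟨U.linear v - ε • U 0, ?_⟩
  rintro _ ⟨x, hx, rfl⟩
  obtain ⟨y, hy, rfl⟩ := hv x hx
  refine ⟨U y, mem_image_of_mem U hy, ?_⟩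
  have hUx : ∀ z, U z = U.linear z + U 0 := by
    intro z
    have h1 := U.map_vadd 0 z
    simp only [vadd_eq_add, add_zero] at h1
    exact h1
  rw [hUx (v + (1 + ε) • y), hUx y, map_add, map_smul]
  module

end Pool.Agent.Zk76.Pm
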